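import Pool.Agent.H38.SD.Even
import Pool.Graph.R_pool_sql_team_seeded_63374d34.N888.TF.Four

set_option autoImplicit false
set_option linter.unusedSectionVars false

/-!
# Counting triangles and hexagons with abstract faces
-/

namespace Pool.Agent.H38.SD

open Finset
open Pool.Agent.H239R2.Planar (rk)
open Pool.Agent.N888.TF (dg dg_card)

/-- the edges inside `S` -/
noncomputable def ES {V : Type} [Fintype V] (G : SimpleGraph V) (S : Finset V) :
    Finset (Sym2 V) :=
  (Set.toFinite {e : Sym2 V | e ∈ G.edgeSet ∧ ∀ v ∈ e, v ∈ S}).toFinset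

theorem mem_ES {V : Type} [Fintype V] {G : SimpleGraph V} {S : Finset V} {e : Sym2 V} :
    e ∈ ES G S ↔ e ∈ G.edgeSet ∧ ∀ v ∈ e, v ∈ S := by
  unfold ES
  rw [Set.Finite.mem_toFinset]
  rfl

theorem mk_mem_ES {V : Type} [Fintype V] {G : SimpleGraph V} {S : Finset V} {u v : V} :
    s(u, v) ∈ ES G S ↔ G.Adj u v ∧ u ∈ S ∧ v ∈ S := by
  rw [mem_ES, SimpleGraph.mem_edgeSet]
  simp

open Classical in
/-- the number of edges at `v` inside `S` which are in no triangle inside `S` -/
noncomputable def ntd {V : Type} (G : SimpleGraph V) (S : Finset V) (v : V) : ℕ :=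
  (S.filter (fun u => G.Adj v u ∧ ∀ w ∈ S, ¬ (G.Adj v w ∧ G.Adj u w))).card

theorem partner {V : Type} {G : SimpleGraph V} {S : Finset V} {v u : V} (h0 : ntd G S v = 0)
    (huS : u ∈ S) (hvu : G.Adj v u) : ∃ w ∈ S, G.Adj v w ∧ G.Adj u w := by
  classical
  by_contra hcon
  push Not at hcon
  unfold ntd at h0
  rw [card_eq_zero] at h0
  have hmem := eq_empty_iff_forall_notMem.1 h0 u
  exact hmem (mem_filter.2 ⟨huS, hvu, fun w hw h => hcon w hw h.1 h.2⟩)

section
variable {V : Type} [Fintype V] [DecidableEq V] {G : SimpleGraph V}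

theorem Hex.card {T : Finset (Sym2 V)} (h : Hex G T) : T.card = 6 := by
  obtain ⟨a, ha, _, rfl⟩ := h
  rw [card_image_of_injective, card_univ, Fintype.card_fin]
  intro i j hij
  simp only [Sym2.eq_iff] at hij
  rcases hij with ⟨h1, _⟩ | ⟨h1, h2⟩
  · exact ha h1
  · have h3 := ha h1
    have h4 := ha h2
    exfalso
    rw [← h4] at h3
    have h5 : ∀ i : Fin 6, i ≠ i + 1 + 1 := by decide
    exact h5 i h3

open Classical in
/-- the edges inside `S` which are in no triangle inside `S` -/
noncomputable def NS (G : SimpleGraph V) (S : Finset V) : Finset (Sym2 V) :=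
  (ES G S).filter (fun e => ¬ ∃ T, Tri G T ∧ T ⊆ ES G S ∧ e ∈ T)

theorem mem_NS {S : Finset V} {e : Sym2 V} : e ∈ NS G S ↔ e ∈ ES G S ∧
    ¬ ∃ T, Tri G T ∧ T ⊆ ES G S ∧ e ∈ T := by
  classical
  unfold NS
  rw [mem_filter]

theorem sum_at {S : Finset V} {F : Finset (Sym2 V)} (hF : F ⊆ ES G S) :
    ∑ v ∈ S, (F.filter (fun e => v ∈ e)).card = 2 * F.card := by
  have h1 := sum_card_bipartiteAbove_eq_sum_card_bipartiteBelow (s := S) (t := F)
    (fun v e => v ∈ e)
  simp only [bipartiteAbove, bipartiteBelow] at h1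
  rw [h1, mul_comm, ← smul_eq_mul, ← sum_const]
  apply sum_congr rfl
  intro e he
  have he' := hF he
  induction e using Sym2.ind with
  | _ a b =>
    obtain ⟨hab, ha, hb⟩ := mk_mem_ES.1 he'
    have : S.filter (fun v => v ∈ s(a, b)) = {a, b} := by
      ext x
      simp only [mem_filter, Sym2.mem_iff, mem_insert, mem_singleton]
      constructor
      · exact fun h => h.2
      · rintro (rfl | rfl)
        · exact ⟨ha, Or.inl rfl⟩
        · exact ⟨hb, Or.inr rfl⟩
    rw [this, card_pair hab.ne]

theorem ES_at {S : Finset V} {v : V} (hv : v ∈ S) :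
    ((ES G S).filter (fun e => v ∈ e)).card = dg G v S := by
  classical
  rw [dg_card]
  have : (ES G S).filter (fun e => v ∈ e) =
      (S.filter (fun y => G.Adj v y)).image (fun y => s(v, y)) := by
    ext e
    simp only [mem_filter, mem_image]
    constructor
    · rintro ⟨h1, h2⟩
      obtain ⟨y, rfl⟩ := h2
      obtain ⟨h3, _, h4⟩ := mk_mem_ES.1 h1
      exact ⟨y, ⟨h4, h3⟩, rfl⟩
    · rintro ⟨y, ⟨h1, h2⟩, rfl⟩
      exact ⟨mk_mem_ES.2 ⟨h2, hv, h1⟩, Sym2.mem_mk_left _ _⟩
  rw [this, card_image_of_injective]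
  intro y z hyz
  exact Sym2.congr_right.1 hyz

theorem NS_at {S : Finset V} {v : V} (hv : v ∈ S) :
    ((NS G S).filter (fun e => v ∈ e)).card = ntd G S v := by
  classical
  unfold ntd
  have : (NS G S).filter (fun e => v ∈ e) =
      (S.filter (fun u => G.Adj v u ∧ ∀ w ∈ S, ¬ (G.Adj v w ∧ G.Adj u w))).image
        (fun y => s(v, y)) := by
    ext e
    simp only [mem_filter, mem_image]
    constructor
    · rintro ⟨h1, h2⟩
      obtain ⟨y, rfl⟩ := h2
      obtain ⟨h1, h5⟩ := mem_NS.1 h1
      obtain ⟨h3, _, h4⟩ := mk_mem_ES.1 h1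
      refine ⟨y, ⟨h4, h3, ?_⟩, rfl⟩
      rintro w hw ⟨h6, h7⟩
      apply h5
      refine ⟨{s(v, y), s(y, w), s(w, v)}, ⟨v, y, w, h3, h7, h6.symm, rfl⟩, ?_, by simp⟩
      intro e he
      simp only [mem_insert, mem_singleton] at he
      rcases he with rfl | rfl | rfl
      · exact mk_mem_ES.2 ⟨h3, hv, h4⟩
      · exact mk_mem_ES.2 ⟨h7, h4, hw⟩
      · exact mk_mem_ES.2 ⟨h6.symm, hw, hv⟩
    · rintro ⟨y, ⟨h1, h2, h3⟩, rfl⟩
      refine ⟨mem_NS.2 ⟨mk_mem_ES.2 ⟨h2, hv, h1⟩, ?_⟩, Sym2.mem_mk_left _ _⟩
      rintro ⟨T, hT, hTS, heT⟩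
      obtain ⟨w, k1, k2, k3⟩ := hT.of_mem heT
      have hw : w ∈ S := by
        have : s(y, w) ∈ ES G S := hTS (by rw [k3]; simp)
        exact (mk_mem_ES.1 this).2.2
      exact h3 w hw ⟨k1, k2⟩
  have h2 : Function.Injective (fun y : V => s(v, y)) := fun y z hyz => Sym2.congr_right.1 hyz
  rw [this, card_image_of_injective _ h2]
  congr!

theorem ES_sum (S : Finset V) : ∑ v ∈ S, dg G v S = 2 * (ES G S).card := by
  rw [← sum_at (Subset.refl (ES G S))]
  exact sum_congr rfl (fun v hv => (ES_at hv).symm)

theorem NS_sum (S : Finset V) : ∑ v ∈ S, ntd G S v = 2 * (NS G S).card := by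
  have h : NS G S ⊆ ES G S := fun e he => (mem_NS.1 he).1
  rw [← sum_at h]
  exact sum_congr rfl (fun v hv => (NS_at hv).symm)

theorem counts (hG : NoC45 G) (S : Finset V) (hS : S.Nonempty) (hTB : HasTB (ES G S)) :
    3 * (ES G S).card + (NS G S).card + 6 ≤ 6 * S.card ∧
    ∃ (P : Type) (_ : Fintype P) (b : P → Finset (Sym2 V)), (∀ x, Hex G (b x)) ∧
      (∀ x, b x ⊆ ES G S) ∧ (∀ x v, Even ((b x).filter (fun e => v ∈ e)).card) ∧
      (∀ e, (univ.filter (fun x => e ∈ b x)).card ≤ 2) ∧
      11 * (ES G S).card + 21 ≤ 3 * Fintype.card P + 21 * S.card := by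
  classical
  obtain ⟨P, _, b, b1, b2, b3, b4, b5⟩ := hTB
  set A := ES G S with hA
  have b2' : ∀ x v, Even ((b x).filter (fun e => v ∈ e)).card := by
    intro x v
    convert b2 x v
  have b3' : ∀ e, (univ.filter (fun x => e ∈ b x)).card ≤ 2 := by
    intro e
    convert b3 e
  have b5' : ∀ U : Finset P, U.Nonempty → ∃ e, (U.filter (fun x => e ∈ b x)).card = 1 := by
    intro U hU
    obtain ⟨e, he⟩ := b5 U hU
    exact ⟨e, by convert he⟩
  have hAG : ∀ e ∈ A, e ∈ G.edgeSet := fun e he => (mem_ES.1 he).1
  have hne : ∀ x, (b x).Nonempty := by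
    intro x
    obtain ⟨e, he⟩ := b5' {x} (singleton_nonempty x)
    by_cases hx : e ∈ b x
    · exact ⟨e, hx⟩
    · rw [filter_singleton, if_neg hx] at he
      simp at he
  have hinj : Function.Injective b := by
    intro x y hxy
    by_contra hne
    obtain ⟨e, he⟩ := b5' {x, y} ⟨x, by simp⟩
    by_cases hx : e ∈ b x
    · have : ({x, y} : Finset P).filter (fun z => e ∈ b z) = {x, y} := by
        rw [filter_true_of_mem]
        intro z hz
        rcases mem_insert.1 hz with rfl | hz
        · exact hx
        · rw [mem_singleton.1 hz, ← hxy]; exact hx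
      rw [this, card_pair hne] at he
      omega
    · have : ({x, y} : Finset P).filter (fun z => e ∈ b z) = ∅ := by
        rw [filter_eq_empty_iff]
        intro z hz
        rcases mem_insert.1 hz with rfl | hz
        · exact hx
        · rw [mem_singleton.1 hz, ← hxy]; exact hx
      rw [this] at he
      simp at he
  have hcl := fun x => even_class hG (b x) (fun e he => hAG e (b1 x he)) (hne x) (b2' x)
  have htri : ∀ x, (b x).card = 3 → Tri G (b x) := by
    intro x hx
    rcases hcl x with h | h | h | h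
    · exact h
    · have := h.card; omega
    · omega
    · omega
  have hge : ∀ x, (b x).card = 3 ∨ (b x).card = 6 ∨ 7 ≤ (b x).card := by
    intro x
    rcases hcl x with h | h | h | h
    · left; exact h.card
    · right; left; exact h.card
    · right; left; exact h.1
    · right; right; exact h
  set P3 := (univ : Finset P).filter (fun x => (b x).card = 3) with hP3
  set P6 := (univ : Finset P).filter (fun x => Hex G (b x)) with hP6
  set PB := (univ : Finset P).filter (fun x => (b x).card = 6 ∧ ¬ Hex G (b x)) with hPB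
  set P7 := (univ : Finset P).filter (fun x => 7 ≤ (b x).card) with hP7
  have hsplit : Fintype.card P = P3.card + P6.card + PB.card + P7.card := by
    rw [hP3, hP6, hPB, hP7, card_filter, card_filter, card_filter, card_filter,
      ← sum_add_distrib, ← sum_add_distrib, ← sum_add_distrib, ← card_univ, card_eq_sum_ones]
    apply sum_congr rfl
    intro x _
    by_cases hH : Hex G (b x)
    · have h6 := hH.card
      simp [hH, h6]
    · rcases hge x with h | h | h
      · simp [hH, h]
      · simp [hH, h]
      · have h3 : (b x).card ≠ 3 := by omega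
        have h6 : (b x).card ≠ 6 := by omega
        simp [hH, h, h3, h6]
  have hsum : ∑ x, (b x).card ≤ 2 * A.card := by
    have h1 := sum_card_bipartiteAbove_eq_sum_card_bipartiteBelow (s := (univ : Finset P))
      (t := A) (fun x e => e ∈ b x)
    simp only [bipartiteAbove, bipartiteBelow] at h1
    have h2 : ∀ x, (A.filter (fun e => e ∈ b x)) = b x := by
      intro x
      ext e
      rw [mem_filter]
      exact ⟨fun h => h.2, fun h => ⟨b1 x h, h⟩⟩
    simp only [h2] at h1
    rw [h1, mul_comm, ← smul_eq_mul, ← sum_const]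
    exact sum_le_sum (fun e _ => b3' e)
  have hlow : 6 * Fintype.card P + P7.card ≤ ∑ x, (b x).card + 3 * P3.card := by
    rw [← card_univ, hP3, hP7, card_filter, card_filter, card_eq_sum_ones, mul_sum, mul_sum,
      ← sum_add_distrib, ← sum_add_distrib]
    apply sum_le_sum
    intro x _
    rcases hge x with h | h | h
    · simp [h]
    · simp [h]
    · have h3 : (b x).card ≠ 3 := by omega
      simp only [h, h3, if_true, if_false]
      omega
  -- the triangles
  set TT := A.powerset.filter (fun T => Tri G T) with hTT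
  have hTTm : ∀ T, T ∈ TT ↔ T ⊆ A ∧ Tri G T := by
    intro T; rw [hTT, mem_filter, mem_powerset]
  have hTTc : 3 * TT.card + (NS G S).card ≤ A.card := by
    have h1 : (TT.biUnion id).card = 3 * TT.card := by
      rw [card_biUnion]
      · rw [mul_comm, ← smul_eq_mul, ← sum_const]
        apply sum_congr rfl
        intro T hT
        exact ((hTTm T).1 hT).2.card
      · intro T hT T' hT' hne
        exact Tri.disjoint hG ((hTTm T).1 hT).2 ((hTTm T').1 hT').2 hne
    have h2 : Disjoint (TT.biUnion id) (NS G S) := by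
      rw [Finset.disjoint_left]
      intro e he he'
      obtain ⟨T, hT, heT⟩ := mem_biUnion.1 he
      exact (mem_NS.1 he').2 ⟨T, ((hTTm T).1 hT).2, ((hTTm T).1 hT).1, heT⟩
    rw [← h1, ← card_union_of_disjoint h2]
    apply card_le_card
    intro e he
    rcases mem_union.1 he with he | he
    · obtain ⟨T, hT, heT⟩ := mem_biUnion.1 he
      exact ((hTTm T).1 hT).1 heT
    · exact (mem_NS.1 he).1
  set Tb := P3.image b with hTb
  have hTbc : Tb.card = P3.card := card_image_of_injective _ hinj
  have hTbT : Tb ⊆ TT := by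
    intro T hT
    obtain ⟨x, hx, rfl⟩ := mem_image.1 hT
    rw [hTTm]
    exact ⟨b1 x, htri x (mem_filter.1 hx).2⟩
  have hsd : (TT \ Tb).card + Tb.card = TT.card := card_sdiff_add_card_eq_card hTbT
  have hPBc : PB.card ≤ 2 * (TT \ Tb).card := by
    have hch : ∀ x, ∃ T, x ∈ PB → T ∈ TT \ Tb ∧ T ⊆ b x := by
      intro x
      by_cases hx : x ∈ PB
      · obtain ⟨-, hx6, hxH⟩ := mem_filter.1 hx
        rcases hcl x with h | h | h | h
        · have := h.card; omega
        · exact absurd h hxH
        · obtain ⟨-, T, T', hT, hT', hd, hTT'⟩ := h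
          have hTx : T ⊆ b x := by rw [hTT']; exact subset_union_left
          have hTx' : T' ⊆ b x := by rw [hTT']; exact subset_union_right
          by_cases h1 : T ∈ Tb
          · by_cases h2 : T' ∈ Tb
            · exfalso
              obtain ⟨y, hy, rfl⟩ := mem_image.1 h1
              obtain ⟨z, hz, rfl⟩ := mem_image.1 h2
              have hxy : x ≠ y := by
                rintro rfl
                have := hT.card; omega
              have hxz : x ≠ z := by
                rintro rfl
                have := hT'.card; omega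
              have hyz : y ≠ z := by
                rintro rfl
                obtain ⟨e, he⟩ := hne y
                exact Finset.disjoint_left.1 hd he he
              obtain ⟨e, he⟩ := b5' {x, y, z} ⟨x, by simp⟩
              have hiff : e ∈ b x ↔ e ∈ b y ∨ e ∈ b z := by rw [hTT', mem_union]
              have hnot : ¬ (e ∈ b y ∧ e ∈ b z) := fun h => Finset.disjoint_left.1 hd h.1 h.2
              have hc1 : (({x, y, z} : Finset P).filter (fun w => e ∈ b w)).card =
                  (if e ∈ b x then 1 else 0) + ((if e ∈ b y then 1 else 0) +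
                    (if e ∈ b z then 1 else 0)) := by
                rw [card_filter, sum_insert (by simp [hxy, hxz]), sum_pair hyz]
              rw [hc1] at he
              by_cases e1 : e ∈ b y
              · have e2 : e ∉ b z := fun h => hnot ⟨e1, h⟩
                have e3 : e ∈ b x := hiff.2 (Or.inl e1)
                simp [e1, e2, e3] at he
              · by_cases e2 : e ∈ b z
                · have e3 : e ∈ b x := hiff.2 (Or.inr e2)
                  simp [e1, e2, e3] at he
                · have e3 : e ∉ b x := fun h => (hiff.1 h).elim e1 e2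
                  simp [e1, e2, e3] at he
            · exact ⟨T', fun _ => ⟨mem_sdiff.2 ⟨(hTTm _).2 ⟨hTx'.trans (b1 x), hT'⟩, h2⟩, hTx'⟩⟩
          · exact ⟨T, fun _ => ⟨mem_sdiff.2 ⟨(hTTm _).2 ⟨hTx.trans (b1 x), hT⟩, h1⟩, hTx⟩⟩
        · omega
      · exact ⟨∅, fun h => absurd h hx⟩
    choose t ht using hch
    apply card_le_mul_card_image_of_maps_to (f := t) (fun x hx => (ht x hx).1)
    intro T hT
    obtain ⟨e, he⟩ : T.Nonempty := by
      rw [← card_pos, ((hTTm T).1 (mem_sdiff.1 hT).1).2.card]
      norm_num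
    refine le_trans (card_le_card ?_) (b3' e)
    intro x hx
    obtain ⟨hx1, hx2⟩ := mem_filter.1 hx
    rw [mem_filter]
    refine ⟨mem_univ _, ?_⟩
    apply (ht x hx1).2
    rw [hx2]; exact he
  have hrk : rk A + 1 ≤ S.card := rk_le A S hS (fun e he v hv => (mem_ES.1 he).2 v hv)
  refine ⟨by omega, {x : P // Hex G (b x)}, inferInstance, fun x => b x.1, fun x => x.2,
    fun x => b1 x.1, fun x v => b2' x.1 v, ?_, ?_⟩
  · intro e
    have h1 : ((univ : Finset {x : P // Hex G (b x)}).filter (fun x => e ∈ b x.1)).image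
        (fun x => x.1) ⊆ univ.filter (fun x => e ∈ b x) := by
      intro x hx
      obtain ⟨y, hy, rfl⟩ := mem_image.1 hx
      rw [mem_filter] at hy ⊢
      exact ⟨mem_univ _, hy.2⟩
    have h2 := card_le_card h1
    rw [card_image_of_injective _ Subtype.val_injective] at h2
    exact h2.trans (b3' e)
  · have h1 : Fintype.card {x : P // Hex G (b x)} = P6.card := by
      rw [hP6, Fintype.card_subtype]
    rw [h1]
    omega

end

end Pool.Agent.H38.SD
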