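import Pool.Agent.H38.SD.Cnt
import Pool.Graph.R_pool_sql_team_seeded_63374d34.N888.TF.Strict

set_option autoImplicit false

/-!
# Critical sets for fractional list colouring of graphs without cycles of length four and five
-/

namespace Pool.Agent.H38.SD

open Finset
open Pool.Agent.TH455 (gi gi_symm gi_zero gi_one gi_nz ind ind_pos ind_neg I2)
open Pool.Agent.N888.TF (Ach Strict dg dg_card dg_mono dg_erase_self dg_sum_real gi_cast
  exact_of_strict strict_mono bi bi_pos bi_neg bi_nonneg bi_le_one bi_congr dual ach_mono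
  ach_ext ach_convex)

section
variable {V Ω : Type} [Fintype V] [Fintype Ω] {G : SimpleGraph V} {A : Ω → Finset V} {μ : Ω → ℝ}

/-- the structure of a minimal set without a strict colouring -/
theorem crit' (hμ : ∀ ω, 0 ≤ μ ω) (hG : NoC45 G) (out : V → ℕ) (T : Finset V)
    (hell : ∀ v ∈ T, (4 : ℝ) - out v ≤ ∑ ω, μ ω * bi (v ∈ A ω))
    (hout1 : ∀ v ∈ T, out v ≤ 2)
    (hout2 : ∀ u ∈ T, ∀ v ∈ T, G.Adj u v → out u + out v ≤ 3)
    (hout3 : ∀ a ∈ T, ∀ b ∈ T, ∀ c ∈ T, G.Adj a b → G.Adj b c → G.Adj c a →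
      out a = 0 ∨ out b = 0 ∨ out c = 0)
    (hT : ¬ Strict G A μ T) :
    ∃ S ⊆ T, S.Nonempty ∧ ∃ w : V → ℝ, (∀ v ∈ S, 0 < w v) ∧
      (∀ v ∈ S, 4 ≤ dg G v S + out v) ∧
      ∀ P Q R : Finset V, P.Nonempty → P ⊆ S → Q ⊆ S → R ⊆ S → Disjoint P Q → Disjoint R P →
        Disjoint R Q → (∀ v ∈ S, v ∈ R ∨ v ∈ P ∨ v ∈ Q) →
        (∀ u ∈ P, ∀ v ∈ P, ¬ G.Adj u v) → (∀ u ∈ Q, ∀ v ∈ Q, ¬ G.Adj u v) →
        (∀ v ∈ P, out v = 0 ∧ dg G v R ≤ 2) → (∀ v ∈ Q, out v = 0 ∧ dg G v R ≤ 2) →
        ∑ v ∈ R, w v ≤ ∑ v ∈ P, w v + ∑ v ∈ Q, w v := by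
  classical
  -- minimal set
  obtain ⟨S, hSmem, hSmin⟩ := exists_min_image (T.powerset.filter (fun S => ¬ Strict G A μ S))
    card ⟨T, by simp [hT]⟩
  obtain ⟨hST, hSn⟩ := mem_filter.1 hSmem
  rw [mem_powerset] at hST
  have hprop : ∀ S', S' ⊂ S → Strict G A μ S' := by
    intro S' hS'
    by_contra hcon
    have h1 := hSmin S' (mem_filter.2 ⟨mem_powerset.2 (hS'.subset.trans hST), hcon⟩)
    have h2 := card_lt_card hS'
    omega
  obtain ⟨w, hw0, ⟨v1, hv1, hwv1⟩, hopt⟩ := dual (G := G) (A := A) hμ S hSn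
  -- positivity
  have hwpos : ∀ v ∈ S, 0 < w v := by
    intro v hv
    by_contra hcon
    have hwv : w v = 0 := le_antisymm (not_lt.1 hcon) (hw0 v hv)
    obtain ⟨d0, hd0, hd⟩ := exact_of_strict (hprop (S.erase v) (erase_ssubset hv))
    have h1 := hopt _ (hd d0 hd0.le le_rfl) (by
      intro x hx
      rw [bi_neg (fun h => hx (mem_of_mem_erase h)), mul_zero])
    have hv1e : v1 ∈ S.erase v := mem_erase.2 ⟨by rintro rfl; rw [hwv] at hwv1; exact lt_irrefl _ hwv1, hv1⟩
    have h2 : ∑ x ∈ S, w x < ∑ x ∈ S, w x * ((1 + d0) * bi (x ∈ S.erase v)) := by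
      apply sum_lt_sum
      · intro x hx
        by_cases hxe : x ∈ S.erase v
        · rw [bi_pos hxe]
          have := hw0 x hx
          nlinarith
        · have : x = v := by
            by_contra hne
            exact hxe (mem_erase.2 ⟨hne, hx⟩)
          rw [this, hwv]; simp
      · refine ⟨v1, hv1, ?_⟩
        rw [bi_pos hv1e]
        nlinarith
    linarith
  -- extension at a single vertex
  have hext1 : ∀ v ∈ S, ∀ S' ⊆ S, v ∉ S' → ∀ d : ℝ, Ach G A μ (fun x => (1 + d) * bi (x ∈ S')) →
      ∃ t' : V → ℝ, Ach G A μ t' ∧ (∀ x ∈ S', t' x = 1 + d) ∧ (∀ x, x ∉ S → t' x = 0) ∧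
        (∀ x, 0 ≤ t' x) ∧ (4 : ℝ) - out v - (1 + d) * dg G v S' ≤ t' v := by
    intro v hv S' hS' hvS' d hd
    obtain ⟨t', ht', h1, h2⟩ := ach_ext hd {v} (by
      intro a ha b hb
      rw [mem_singleton] at ha hb
      subst ha; subst hb
      exact G.loopless.irrefl _)
    refine ⟨t', ht', ?_, ?_, ht'.nonneg, ?_⟩
    · intro x hx
      rw [h1 x (by rw [mem_singleton]; rintro rfl; exact hvS' hx), bi_pos hx, mul_one]
    · intro x hx
      rw [h1 x (by rw [mem_singleton]; rintro rfl; exact hx hv), bi_neg (fun h => hx (hS' h)),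
        mul_zero]
    · have h3 := h2 v (mem_singleton_self v)
      rw [dg_sum_real] at h3
      have h4 := hell v (hST hv)
      linarith
  -- (i)
  have hi : ∀ v ∈ S, 3 ≤ dg G v S + out v := by
    intro v hv
    by_contra hcon
    push Not at hcon
    obtain ⟨d0, hd0, hd⟩ := exact_of_strict (hprop (S.erase v) (erase_ssubset hv))
    set d : ℝ := min d0 (1/4) with hdd
    have hdpos : 0 < d := lt_min hd0 (by norm_num)
    have hd4 : d ≤ 1/4 := min_le_right _ _
    obtain ⟨t', ht', g1, g2, g3, g4⟩ := hext1 v hv (S.erase v) (erase_subset _ _)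
      (notMem_erase _ _) d (hd d hdpos.le (min_le_left _ _))
    apply hSn
    refine ⟨t', ht', ?_⟩
    intro x hx
    by_cases hxv : x = v
    · subst hxv
      rw [dg_erase_self] at g4
      have e1 : dg G x S + out x ≤ 2 := by omega
      have e2 : (dg G x S : ℝ) + out x ≤ 2 := by exact_mod_cast e1
      have e3 : (0 : ℝ) ≤ out x := Nat.cast_nonneg _
      have e4 : (0 : ℝ) ≤ dg G x S := Nat.cast_nonneg _
      nlinarith
    · rw [g1 x (mem_erase.2 ⟨hxv, hx⟩)]; linarith
  -- (ii)
  have hii : ∀ v ∈ S, dg G v S + out v = 3 → ∀ x ∈ S, x ≠ v → G.Adj v x := by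
    intro v hv h3 x hx hxv
    -- weights of the neighbours
    have hnb : ∀ u ∈ S, G.Adj v u → w v ≤ w u := by
      intro u hu huv
      have hne : u ≠ v := huv.ne.symm
      obtain ⟨d0, hd0, hd⟩ := exact_of_strict (hprop (S.erase v) (erase_ssubset hv))
      have hachS : Ach G A μ (fun x => (1 + (0:ℝ)) * bi (x ∈ (S.erase v).erase u)) := by
        apply ach_mono (hd 0 le_rfl hd0.le)
        · intro x; exact mul_nonneg (by norm_num) (bi_nonneg _)
        · intro x
          apply mul_le_mul_of_nonneg_left _ (by norm_num)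
          by_cases hxm : x ∈ (S.erase v).erase u
          · rw [bi_pos hxm, bi_pos (mem_of_mem_erase hxm)]
          · rw [bi_neg hxm]; exact bi_nonneg _
      have hsub : (S.erase v).erase u ⊆ S := (erase_subset _ _).trans (erase_subset _ _)
      obtain ⟨t', ht', g1, g2, g3, g4⟩ := hext1 v hv ((S.erase v).erase u) hsub
        (fun h => notMem_erase v S (mem_of_mem_erase h)) 0 hachS
      have hdgu : dg G v ((S.erase v).erase u) + 1 = dg G v S := by
        rw [← dg_erase_self G v S]
        unfold dg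
        rw [← add_sum_erase (S.erase v) _ (mem_erase.2 ⟨hne, hu⟩), gi_one huv]
        omega
      have h4 : 2 ≤ t' v := by
        have e1 : (dg G v ((S.erase v).erase u) : ℝ) + 1 + out v = 3 := by
          have : dg G v ((S.erase v).erase u) + 1 + out v = 3 := by omega
          exact_mod_cast this
        linarith
      have h5 := hopt t' ht' g2
      have e1 : ∑ z ∈ S, w z = w v + (w u + ∑ z ∈ (S.erase v).erase u, w z) := by
        rw [← add_sum_erase S _ hv, ← add_sum_erase (S.erase v) _ (mem_erase.2 ⟨hne, hu⟩)]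
      have e2 : ∑ z ∈ S, w z * t' z = w v * t' v + (w u * t' u +
          ∑ z ∈ (S.erase v).erase u, w z * t' z) := by
        rw [← add_sum_erase S _ hv, ← add_sum_erase (S.erase v) _ (mem_erase.2 ⟨hne, hu⟩)]
      have e3 : ∑ z ∈ (S.erase v).erase u, w z * t' z = ∑ z ∈ (S.erase v).erase u, w z := by
        apply sum_congr rfl
        intro z hz
        rw [g1 z hz]; ring
      rw [e1, e2, e3] at h5
      have h6 : 0 ≤ w u * t' u := mul_nonneg (hwpos u hu).le (g3 u)
      have h7 := hwpos v hv
      nlinarith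
    -- total weight
    obtain ⟨d0, hd0, hd⟩ := exact_of_strict (hprop (S.erase v) (erase_ssubset hv))
    obtain ⟨t', ht', g1, g2, g3, g4⟩ := hext1 v hv (S.erase v) (erase_subset _ _)
      (notMem_erase _ _) d0 (hd d0 hd0.le le_rfl)
    rw [dg_erase_self] at g4
    have h5 := hopt t' ht' g2
    have e1 : ∑ z ∈ S, w z = w v + ∑ z ∈ S.erase v, w z := by
      rw [← add_sum_erase S _ hv]
    have e2 : ∑ z ∈ S, w z * t' z = w v * t' v + ∑ z ∈ S.erase v, w z * t' z := by
      rw [← add_sum_erase S _ hv]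
    have e3 : ∑ z ∈ S.erase v, w z * t' z = (1 + d0) * ∑ z ∈ S.erase v, w z := by
      rw [mul_sum]
      apply sum_congr rfl
      intro z hz
      rw [g1 z hz]; ring
    rw [e1, e2, e3] at h5
    have h7 := hwpos v hv
    have e4 : (dg G v S : ℝ) + out v = 3 := by exact_mod_cast h3
    have h8 : 1 - d0 * dg G v S ≤ t' v := by
      have : (4 : ℝ) - out v - (1 + d0) * dg G v S = 1 - d0 * dg G v S := by
        have : (out v : ℝ) = 3 - dg G v S := by linarith
        rw [this]; ring
      linarith
    have h9 : w v * (1 - d0 * dg G v S) ≤ w v * t' v := mul_le_mul_of_nonneg_left h8 h7.le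
    have h10 : ∑ z ∈ S.erase v, w z ≤ w v * dg G v S := by
      have : d0 * ∑ z ∈ S.erase v, w z ≤ d0 * (w v * dg G v S) := by nlinarith
      exact le_of_mul_le_mul_left this hd0
    -- the neighbours already have this weight
    have h11 : w v * dg G v S ≤ ∑ z ∈ S.erase v, w z * bi (G.Adj v z) := by
      rw [← dg_erase_self G v S]
      unfold dg
      push_cast
      rw [mul_sum]
      apply sum_le_sum
      intro z hz
      rw [gi_cast]
      by_cases hadj : G.Adj v z
      · rw [bi_pos hadj]
        have := hnb z (mem_of_mem_erase hz) hadj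
        linarith
      · rw [bi_neg hadj]; simp
    by_contra hnadj
    have h12 : ∑ z ∈ S.erase v, w z * bi (G.Adj v z) < ∑ z ∈ S.erase v, w z := by
      apply sum_lt_sum
      · intro z hz
        have := mul_le_mul_of_nonneg_left (bi_le_one (G.Adj v z)) (hwpos z (mem_of_mem_erase hz)).le
        linarith
      · refine ⟨x, mem_erase.2 ⟨hxv, hx⟩, ?_⟩
        rw [bi_neg hnadj]
        have := hwpos x hx
        linarith
    linarith
  -- no vertex of type (ii)
  have hiii : ∀ v ∈ S, 4 ≤ dg G v S + out v := by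
    intro v hv
    by_contra hcon
    have h3 : dg G v S + out v = 3 := by have := hi v hv; omega
    have hall := hii v hv h3
    have hout1' : ∀ u ∈ S, out u ≤ 2 := fun u hu => hout1 u (hST hu)
    -- every other vertex has at most one common neighbour with v
    have hdv : dg G v S = (S.filter (fun y => G.Adj v y)).card := dg_card G S v
    have hfil : S.filter (fun y => G.Adj v y) = S.erase v := by
      ext y
      rw [mem_filter, mem_erase]
      constructor
      · rintro ⟨h1, h2⟩; exact ⟨h2.ne.symm, h1⟩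
      · rintro ⟨h1, h2⟩; exact ⟨h2, hall y h2 h1⟩
    rw [hfil, ← Nat.add_right_cancel_iff (n := 1), card_erase_add_one hv] at hdv
    -- a vertex u ≠ v with only the neighbour v
    have hone : ∀ u ∈ S, u ≠ v → ∃ x ∈ S, x ≠ v ∧ G.Adj u x := by
      intro u hu huv
      by_contra hno
      push Not at hno
      have hdu : dg G u S = 1 := by
        rw [dg_card]
        rw [card_eq_one]
        refine ⟨v, ?_⟩
        ext y
        rw [mem_filter, mem_singleton]
        constructor
        · rintro ⟨h1, h2⟩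
          by_contra h4
          exact hno y h1 h4 h2
        · rintro rfl
          exact ⟨hv, (hall u hu huv).symm⟩
      have hou : out u = 2 := by
        have := hi u hu
        have := hout1' u hu
        omega
      have hallu := hii u hu (by omega)
      have hcard : S.card = 2 := by
        have : S = {u, v} := by
          ext y
          rw [mem_insert, mem_singleton]
          constructor
          · intro hy
            by_contra h4
            push Not at h4
            exact hno y hy h4.2 (hallu y hy h4.1)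
          · rintro (rfl | rfl)
            · exact hu
            · exact hv
        rw [this, card_pair huv]
      have := hout2 u (hST hu) v (hST hv) (hall u hu huv).symm
      omega
    -- there is a neighbour
    have ho := hout1' v hv
    obtain ⟨u1, hu1⟩ : (S.erase v).Nonempty := by
      rw [← card_pos]
      have := card_erase_add_one hv
      omega
    obtain ⟨hu1v, hu1S⟩ := mem_erase.1 hu1
    obtain ⟨u2, hu2S, hu2v, h12⟩ := hone u1 hu1S hu1v
    have a1 := hall u1 hu1S hu1v
    have a2 := hall u2 hu2S hu2v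
    -- degree at most two
    have hdeg : ∀ u ∈ S, ∀ x ∈ S, u ≠ v → x ≠ v → G.Adj u x → dg G u S ≤ 2 := by
      intro u hu x hx huv hxv hux
      rw [dg_card]
      have : S.filter (fun y => G.Adj u y) ⊆ {v, x} := by
        intro y hy
        obtain ⟨hyS, huy⟩ := mem_filter.1 hy
        rw [mem_insert, mem_singleton]
        by_contra h4
        push Not at h4
        exact noC4 hG (hall x hx hxv) hux.symm huy (hall y hyS h4.1).symm huv.symm
          (Ne.symm h4.2)
      exact (card_le_card this).trans card_le_two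
    by_cases hov : out v = 0
    · -- a third neighbour
      have hS4 : S.card = 4 := by omega
      obtain ⟨u3, hu3⟩ : (S \ {v, u1, u2}).Nonempty := by
        rw [← card_pos]
        have h5 := le_card_sdiff {v, u1, u2} S
        have h6 : ({v, u1, u2} : Finset V).card ≤ 3 := card_le_three
        omega
      rw [mem_sdiff] at hu3
      obtain ⟨hu3S, hu3n⟩ := hu3
      simp only [mem_insert, mem_singleton, not_or] at hu3n
      obtain ⟨n1, n2, n3⟩ := hu3n
      obtain ⟨x, hxS, hxv, h3x⟩ := hone u3 hu3S n1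
      have hSeq : ({v, u1, u2, u3} : Finset V) = S := by
        apply eq_of_subset_of_card_le
        · intro y hy
          simp only [mem_insert, mem_singleton] at hy
          rcases hy with rfl | rfl | rfl | rfl
          · exact hv
          · exact hu1S
          · exact hu2S
          · exact hu3S
        · rw [hS4, card_insert_of_notMem, card_insert_of_notMem, card_pair]
          · exact Ne.symm n3
          · simp only [mem_insert, mem_singleton, not_or]
            exact ⟨h12.ne, Ne.symm n2⟩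
          · simp only [mem_insert, mem_singleton, not_or]
            exact ⟨Ne.symm hu1v, Ne.symm hu2v, Ne.symm n1⟩
      have hx' := hxS
      rw [← hSeq] at hx'
      simp only [mem_insert, mem_singleton] at hx'
      have a3 := hall u3 hu3S n1
      rcases hx' with h | h | h | h
      · exact hxv h
      · -- u3 ~ u1
        rw [h] at h3x
        exact noC4 hG a2 h12.symm h3x.symm a3.symm (Ne.symm hu1v) (Ne.symm n3)
      · rw [h] at h3x
        exact noC4 hG a1 h12 h3x.symm a3.symm (Ne.symm hu2v) (Ne.symm n2)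
      · rw [h] at h3x
        exact h3x.ne rfl
    · have d1 := hdeg u1 hu1S u2 hu2S hu1v hu2v h12
      have d2 := hdeg u2 hu2S u1 hu1S hu2v hu1v h12.symm
      have i1 := hi u1 hu1S
      have i2 := hi u2 hu2S
      rcases hout3 v (hST hv) u1 (hST hu1S) u2 (hST hu2S) a1 h12 a2.symm with h | h | h
      · exact hov h
      · omega
      · omega
  refine ⟨S, hST, ⟨v1, hv1⟩, w, hwpos, hiii, ?_⟩
  intro P Q R hPne hPS hQS hRS hPQ hRP hRQ hcov hPi hQi hP hQ
  have hRss : R ⊂ S := by
    refine ⟨hRS, ?_⟩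
    intro h
    obtain ⟨x, hx⟩ := hPne
    exact disjoint_left.1 hRP (h (hPS hx)) hx
  obtain ⟨d, hd0, hd⟩ := exact_of_strict (hprop R hRss)
  have hA := hd d hd0.le le_rfl
  obtain ⟨t1, ht1, a1, a2⟩ := ach_ext hA P hPi
  obtain ⟨t2, ht2, b1, b2⟩ := ach_ext hA Q hQi
  have hA3 := ach_convex ht1 ht2 (a := 1/2) (b := 1/2) (by norm_num) (by norm_num) (by norm_num)
  have hzero : ∀ v, v ∉ S → (1/2 : ℝ) * t1 v + 1/2 * t2 v = 0 := by
    intro v hv
    rw [a1 v (fun h => hv (hPS h)), b1 v (fun h => hv (hQS h)), bi_neg (fun h => hv (hRS h))]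
    ring
  have h5 := hopt _ hA3 hzero
  have hS : S = R ∪ (P ∪ Q) := by
    apply Subset.antisymm (fun x hx => by
      rw [mem_union, mem_union]; exact hcov x hx)
    intro x hx
    rcases mem_union.1 hx with h | h
    · exact hRS h
    · rcases mem_union.1 h with h | h
      · exact hPS h
      · exact hQS h
  have hdis : Disjoint R (P ∪ Q) := by
    rw [disjoint_union_right]; exact ⟨hRP, hRQ⟩
  have hsum : ∀ f : V → ℝ, ∑ v ∈ S, f v = ∑ v ∈ R, f v + (∑ v ∈ P, f v + ∑ v ∈ Q, f v) := by
    intro f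
    rw [hS, sum_union hdis, sum_union hPQ]
  rw [hsum, hsum] at h5
  have eR : ∑ v ∈ R, w v * (1/2 * t1 v + 1/2 * t2 v) = (1 + d) * ∑ v ∈ R, w v := by
    rw [mul_sum]
    apply sum_congr rfl
    intro v hv
    rw [a1 v (disjoint_left.1 hRP hv), b1 v (disjoint_left.1 hRQ hv), bi_pos hv]; ring
  have key : ∀ v, v ∈ S → out v = 0 → dg G v R ≤ 2 → ∀ t : ℝ,
      (∑ ω, μ ω * bi (v ∈ A ω)) - (∑ u, ((1 + d) * bi (u ∈ R)) * bi (G.Adj v u)) ≤ t →
      2 - 2 * d ≤ t := by
    intro v hv h0 h2 t ht
    rw [dg_sum_real] at ht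
    have h3 := hell v (hST hv)
    rw [h0] at h3
    have h4 : (dg G v R : ℝ) ≤ 2 := by exact_mod_cast h2
    have h6 : (0 : ℝ) ≤ dg G v R := Nat.cast_nonneg _
    push_cast at h3
    nlinarith
  have eP : (1 - d) * ∑ v ∈ P, w v ≤ ∑ v ∈ P, w v * (1/2 * t1 v + 1/2 * t2 v) := by
    rw [mul_sum]
    apply sum_le_sum
    intro v hv
    have h1 := key v (hPS hv) (hP v hv).1 (hP v hv).2 (t1 v) (a2 v hv)
    have h2 := ht2.nonneg v
    have h3 := hwpos v (hPS hv)
    nlinarith
  have eQ : (1 - d) * ∑ v ∈ Q, w v ≤ ∑ v ∈ Q, w v * (1/2 * t1 v + 1/2 * t2 v) := by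
    rw [mul_sum]
    apply sum_le_sum
    intro v hv
    have h1 := key v (hQS hv) (hQ v hv).1 (hQ v hv).2 (t2 v) (b2 v hv)
    have h2 := ht1.nonneg v
    have h3 := hwpos v (hQS hv)
    nlinarith
  rw [eR] at h5
  have : d * ∑ v ∈ R, w v ≤ d * (∑ v ∈ P, w v + ∑ v ∈ Q, w v) := by linarith
  exact le_of_mul_le_mul_left this hd0

end

end Pool.Agent.H38.SD
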