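import Pool.Agent.H38.SD.Face

set_option autoImplicit false
set_option linter.unusedSectionVars false

/-!
# Even sets of edges in graphs without cycles of length four and five
-/

namespace Pool.Agent.H38.SD

open Finset SimpleGraph
open Pool.Agent.H239R2.Planar (rk exists_leaf_of_acyclic)

/-- no cycles of length four and five -/
def NoC45 {V : Type} (G : SimpleGraph V) : Prop :=
  ∀ (v : V) (c : G.Walk v v), c.IsCycle → c.length ≠ 4 ∧ c.length ≠ 5

theorem noC4 {V : Type} {G : SimpleGraph V} (h : NoC45 G) {a b c d : V} (hab : G.Adj a b)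
    (hbc : G.Adj b c) (hcd : G.Adj c d) (hda : G.Adj d a) (hac : a ≠ c) (hbd : b ≠ d) : False := by
  have h1 := h a (Walk.cons hab (Walk.cons hbc (Walk.cons hcd (Walk.cons hda Walk.nil)))) (by
    rw [Walk.isCycle_def, Walk.isTrail_def]
    refine ⟨?_, by simp, ?_⟩
    · have := hab.ne; have := hbc.ne; have := hcd.ne; have := hda.ne
      simp [Sym2.eq_iff]
      tauto
    · have := hab.ne; have := hbc.ne; have := hcd.ne; have := hda.ne
      simp
      tauto)
  exact h1.1 rfl

theorem noC5 {V : Type} {G : SimpleGraph V} (h : NoC45 G) {a b c d e : V} (hab : G.Adj a b)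
    (hbc : G.Adj b c) (hcd : G.Adj c d) (hde : G.Adj d e) (hea : G.Adj e a) (hac : a ≠ c)
    (had : a ≠ d) (hbd : b ≠ d) (hbe : b ≠ e) (hce : c ≠ e) : False := by
  have h1 := h a (Walk.cons hab (Walk.cons hbc (Walk.cons hcd (Walk.cons hde
    (Walk.cons hea Walk.nil))))) (by
    rw [Walk.isCycle_def, Walk.isTrail_def]
    refine ⟨?_, by simp, ?_⟩
    · have := hab.ne; have := hbc.ne; have := hcd.ne; have := hde.ne; have := hea.ne
      simp [Sym2.eq_iff]
      tauto
    · have := hab.ne; have := hbc.ne; have := hcd.ne; have := hde.ne; have := hea.ne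
      simp
      tauto)
  exact h1.2 rfl

section
variable {V : Type} [Fintype V] [DecidableEq V] (G : SimpleGraph V)

/-- the edge set of a triangle -/
def Tri (T : Finset (Sym2 V)) : Prop :=
  ∃ a b c : V, G.Adj a b ∧ G.Adj b c ∧ G.Adj c a ∧ T = {s(a, b), s(b, c), s(c, a)}

/-- the edge set of a hexagon -/
def Hex (T : Finset (Sym2 V)) : Prop :=
  ∃ a : Fin 6 → V, Function.Injective a ∧ (∀ i, G.Adj (a i) (a (i + 1))) ∧
    T = univ.image (fun i => s(a i, a (i + 1)))

variable {G}

theorem Tri.card {T : Finset (Sym2 V)} (h : Tri G T) : T.card = 3 := by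
  obtain ⟨a, b, c, h1, h2, h3, rfl⟩ := h
  have := h1.ne; have := h2.ne; have := h3.ne
  rw [card_eq_three]
  refine ⟨_, _, _, ?_, ?_, ?_, rfl⟩
  · rw [Ne, Sym2.eq_iff]; tauto
  · rw [Ne, Sym2.eq_iff]; tauto
  · rw [Ne, Sym2.eq_iff]; tauto

theorem Tri.of_mem {T : Finset (Sym2 V)} (h : Tri G T) {u v : V} (he : s(u, v) ∈ T) :
    ∃ w, G.Adj u w ∧ G.Adj v w ∧ T = {s(u, v), s(v, w), s(w, u)} := by
  obtain ⟨a, b, c, h1, h2, h3, rfl⟩ := h
  simp only [mem_insert, mem_singleton, Sym2.eq_iff] at he
  rcases he with (⟨rfl, rfl⟩ | ⟨rfl, rfl⟩) | (⟨rfl, rfl⟩ | ⟨rfl, rfl⟩) | (⟨rfl, rfl⟩ | ⟨rfl, rfl⟩)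
  · exact ⟨c, h3.symm, h2, rfl⟩
  · refine ⟨c, h2, h3.symm, ?_⟩
    ext x
    simp only [mem_insert, mem_singleton]
    rw [Sym2.eq_swap (a := u) (b := v), Sym2.eq_swap (a := c) (b := u),
      Sym2.eq_swap (a := v) (b := c)]
    tauto
  · refine ⟨a, h1.symm, h3, ?_⟩
    ext x
    simp only [mem_insert, mem_singleton]
    tauto
  · refine ⟨a, h3, h1.symm, ?_⟩
    ext x
    simp only [mem_insert, mem_singleton]
    rw [Sym2.eq_swap (a := u) (b := v), Sym2.eq_swap (a := v) (b := a),
      Sym2.eq_swap (a := a) (b := u)]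
    tauto
  · refine ⟨b, h2.symm, h1, ?_⟩
    ext x
    simp only [mem_insert, mem_singleton]
    tauto
  · refine ⟨b, h1, h2.symm, ?_⟩
    ext x
    simp only [mem_insert, mem_singleton]
    rw [Sym2.eq_swap (a := u) (b := v), Sym2.eq_swap (a := v) (b := b),
      Sym2.eq_swap (a := b) (b := u)]
    tauto

theorem Tri.disjoint (hG : NoC45 G) {T T' : Finset (Sym2 V)} (h : Tri G T) (h' : Tri G T')
    (hne : T ≠ T') : Disjoint T T' := by
  rw [Finset.disjoint_left]
  intro e
  induction e using Sym2.ind with
  | _ u v =>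
    intro he he'
    obtain ⟨w, h1, h2, h3⟩ := h.of_mem he
    obtain ⟨w', h1', h2', h3'⟩ := h'.of_mem he'
    have huv : G.Adj u v := by
      obtain ⟨a, b, c, k1, k2, k3, rfl⟩ := h
      simp only [mem_insert, mem_singleton] at he
      rcases he with he | he | he
      · rwa [← mem_edgeSet, he, mem_edgeSet]
      · rwa [← mem_edgeSet, he, mem_edgeSet]
      · rwa [← mem_edgeSet, he, mem_edgeSet]
    by_cases hw : w = w'
    · subst hw
      exact hne (h3.trans h3'.symm)
    · exact noC4 hG h1 h2.symm h2' h1'.symm huv.ne hw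

theorem tri_of_walk {v : V} (c : G.Walk v v) (hc : c.IsCycle) (hl : c.length = 3) :
    Tri G c.edges.toFinset := by
  match c, hl with
  | Walk.cons h1 (Walk.cons h2 (Walk.cons h3 Walk.nil)), _ =>
    refine ⟨_, _, _, h1, h2, h3, ?_⟩
    simp

theorem hex_of_walk {v : V} (c : G.Walk v v) (hc : c.IsCycle) (hl : c.length = 6) :
    Hex G c.edges.toFinset := by
  match c, hl with
  | Walk.cons (v := a1) h1 (Walk.cons (v := a2) h2 (Walk.cons (v := a3) h3
      (Walk.cons (v := a4) h4 (Walk.cons (v := a5) h5 (Walk.cons h6 Walk.nil))))), _ =>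
    have hnd := hc.support_nodup
    simp only [Walk.support_cons, Walk.support_nil, List.tail_cons, List.nodup_cons,
      List.mem_cons, List.not_mem_nil, or_false, not_or, List.nodup_nil, and_true,
      not_false_eq_true] at hnd
    refine ⟨![v, a1, a2, a3, a4, a5], ?_, ?_, ?_⟩
    · intro i j hij
      fin_cases i <;> fin_cases j <;> simp at hij ⊢ <;> tauto
    · intro i
      fin_cases i
      · exact h1
      · exact h2
      · exact h3
      · exact h4
      · exact h5
      · exact h6
    · ext e
      simp only [Walk.edges_cons, Walk.edges_nil, List.toFinset_cons, List.toFinset_nil,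
        insert_empty_eq, mem_insert, mem_singleton, mem_image, mem_univ, true_and]
      constructor
      · rintro (rfl | rfl | rfl | rfl | rfl | rfl)
        · exact ⟨0, rfl⟩
        · exact ⟨1, rfl⟩
        · exact ⟨2, rfl⟩
        · exact ⟨3, rfl⟩
        · exact ⟨4, rfl⟩
        · exact ⟨5, rfl⟩
      · rintro ⟨i, rfl⟩
        fin_cases i
        · left; rfl
        · right; left; rfl
        · right; right; left; rfl
        · right; right; right; left; rfl
        · right; right; right; right; left; rfl
        · right; right; right; right; right; rfl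

theorem exists_cycle (B : Finset (Sym2 V)) (hB : ∀ e ∈ B, e ∈ G.edgeSet) (hne : B.Nonempty)
    (hev : ∀ v : V, Even (B.filter (fun e => v ∈ e)).card) :
    ∃ (v : V) (c : G.Walk v v), c.IsCycle ∧ c.edges.toFinset ⊆ B := by
  set H : SimpleGraph V := SimpleGraph.fromEdgeSet (B : Set (Sym2 V)) with hH
  have hadj : ∀ u v, H.Adj u v ↔ s(u, v) ∈ B := by
    intro u v
    rw [hH, SimpleGraph.fromEdgeSet_adj]
    constructor
    · rintro ⟨h, _⟩; exact_mod_cast h
    · intro h
      have h' : s(u, v) ∈ (B : Set (Sym2 V)) := by exact_mod_cast h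
      exact ⟨h', (G.mem_edgeSet.mp (hB _ h)).ne⟩
  have hle : H ≤ G := by
    intro u v huv
    exact G.mem_edgeSet.mp (hB _ ((hadj u v).mp huv))
  have hcyc : ¬ H.IsAcyclic := by
    intro hac
    obtain ⟨e, he⟩ := hne
    induction e using Sym2.ind with
    | _ a b =>
      obtain ⟨u, w, hw, huniq⟩ := exists_leaf_of_acyclic H hac ((hadj a b).mpr he)
      have h1 : B.filter (fun e => u ∈ e) = {s(u, w)} := by
        ext e
        simp only [Finset.mem_filter, Finset.mem_singleton]
        constructor
        · rintro ⟨he, hu⟩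
          obtain ⟨w', rfl⟩ := hu
          rw [huniq w' ((hadj u w').mpr he)]
        · rintro rfl
          exact ⟨(hadj u w).mp hw, Sym2.mem_mk_left u w⟩
      have h2 := hev u
      rw [h1] at h2
      simp at h2
  rw [SimpleGraph.IsAcyclic] at hcyc
  push Not at hcyc
  obtain ⟨v, c, hc⟩ := hcyc
  refine ⟨v, c.mapLe hle, (Walk.isCycle_mapLe hle).mpr hc, ?_⟩
  intro e he
  rw [List.mem_toFinset, Walk.edges_mapLe_eq_edges] at he
  have h3 := Walk.edges_subset_edgeSet c he
  induction e using Sym2.ind with
  | _ a b => exact (hadj a b).mp h3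

theorem even_edges {v : V} (c : G.Walk v v) (hc : c.IsCycle) (u : V) :
    Even (c.edges.toFinset.filter (fun e => u ∈ e)).card := by
  have h1 := (hc.isTrail.even_countP_edges_iff u).2 (fun h => absurd rfl h)
  have h2 : (c.edges.toFinset.filter (fun e => u ∈ e)).card =
      c.edges.countP (fun e => u ∈ e) := by
    have h3 : c.edges.toFinset.filter (fun e => u ∈ e) =
        (c.edges.filter (fun e => decide (u ∈ e))).toFinset := by
      ext e; simp
    rw [List.countP_eq_length_filter, h3, List.toFinset_card_of_nodup]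
    exact hc.isTrail.edges_nodup.filter _
  rw [h2]
  exact h1

theorem even_sdiff {B T : Finset (Sym2 V)} (hT : T ⊆ B)
    (hB : ∀ v : V, Even (B.filter (fun e => v ∈ e)).card)
    (hTe : ∀ v : V, Even (T.filter (fun e => v ∈ e)).card) (v : V) :
    Even ((B \ T).filter (fun e => v ∈ e)).card := by
  have h1 : ((B \ T).filter (fun e => v ∈ e)).card + (T.filter (fun e => v ∈ e)).card =
      (B.filter (fun e => v ∈ e)).card := by
    rw [← card_union_of_disjoint]
    · congr 1
      ext e
      simp only [mem_union, mem_filter, mem_sdiff]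
      have := @hT e
      tauto
    · rw [Finset.disjoint_left]
      intro e he he'
      exact (mem_sdiff.1 (mem_filter.1 he).1).2 (mem_filter.1 he').1
  have h2 := hB v
  have h3 := hTe v
  rw [← h1] at h2
  exact (Nat.even_add.1 h2).2 h3

/-- the classification of small even sets of edges -/
theorem even_class (hG : NoC45 G) (B : Finset (Sym2 V)) (hB : ∀ e ∈ B, e ∈ G.edgeSet)
    (hne : B.Nonempty) (hev : ∀ v : V, Even (B.filter (fun e => v ∈ e)).card) :
    Tri G B ∨ Hex G B ∨ (B.card = 6 ∧ ∃ T T', Tri G T ∧ Tri G T' ∧ Disjoint T T' ∧ B = T ∪ T') ∨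
      7 ≤ B.card := by
  obtain ⟨v, c, hc, hcB⟩ := exists_cycle B hB hne hev
  have hlen := hc.three_le_length
  obtain ⟨h4, h5⟩ := hG v c hc
  have hcard : c.edges.toFinset.card = c.length := by
    rw [List.toFinset_card_of_nodup hc.isTrail.edges_nodup, Walk.length_edges]
  have hle := card_le_card hcB
  by_cases h3 : c.length = 3
  · have hT := tri_of_walk c hc h3
    by_cases hBT : B \ c.edges.toFinset = ∅
    · left
      have : B = c.edges.toFinset := Subset.antisymm (sdiff_eq_empty_iff_subset.1 hBT) hcB
      rw [this]; exact hT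
    · right; right
      obtain ⟨v', c', hc', hcB'⟩ := exists_cycle (B \ c.edges.toFinset)
        (fun e he => hB e (mem_sdiff.1 he).1) (nonempty_iff_ne_empty.2 hBT)
        (even_sdiff hcB hev (even_edges c hc))
      have hlen' := hc'.three_le_length
      obtain ⟨h4', h5'⟩ := hG v' c' hc'
      have hcard' : c'.edges.toFinset.card = c'.length := by
        rw [List.toFinset_card_of_nodup hc'.isTrail.edges_nodup, Walk.length_edges]
      have hle' := card_le_card hcB'
      have hsd := card_sdiff_add_card_eq_card hcB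
      by_cases h3' : c'.length = 3
      · have hT' := tri_of_walk c' hc' h3'
        by_cases h7 : 7 ≤ B.card
        · right; exact h7
        · left
          have hd : Disjoint c.edges.toFinset c'.edges.toFinset := by
            rw [Finset.disjoint_right]
            intro e he
            exact (mem_sdiff.1 (hcB' he)).2
          refine ⟨by omega, _, _, hT, hT', hd, ?_⟩
          symm
          apply eq_of_subset_of_card_le
          · exact union_subset hcB (hcB'.trans sdiff_subset)
          · rw [card_union_of_disjoint hd]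
            omega
      · right
        omega
  · by_cases h6 : c.length = 6
    · by_cases h7 : 7 ≤ B.card
      · right; right; right; exact h7
      · right; left
        have : c.edges.toFinset = B := eq_of_subset_of_card_le hcB (by omega)
        rw [← this]
        exact hex_of_walk c hc h6
    · right; right; right
      omega

end

open Classical in
theorem rk_le {V : Type} [Fintype V] (A : Finset (Sym2 V)) (W : Finset V) (hW : W.Nonempty)
    (hA : ∀ e ∈ A, ∀ v ∈ e, v ∈ W) : rk A + 1 ≤ W.card := by
  obtain ⟨w0, hw0⟩ := hW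
  set s : Finset (V → ℚ) := (W.erase w0).image (fun w => Pi.single w 1 - Pi.single w0 1) with hs
  have h1 : Submodule.span ℚ {x : V → ℚ | ∃ u v : V, s(u, v) ∈ A ∧
      x = Pi.single u 1 - Pi.single v 1} ≤ Submodule.span ℚ (s : Set (V → ℚ)) := by
    rw [Submodule.span_le]
    rintro _ ⟨u, v, huv, rfl⟩
    have key : ∀ w ∈ W, (Pi.single w 1 - Pi.single w0 1 : V → ℚ) ∈
        Submodule.span ℚ (s : Set (V → ℚ)) := by
      intro w hw
      by_cases hww : w = w0
      · rw [hww, sub_self]; exact Submodule.zero_mem _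
      · apply Submodule.subset_span
        exact mem_coe.2 (mem_image_of_mem _ (mem_erase.2 ⟨hww, hw⟩))
    have := Submodule.sub_mem _ (key u (hA _ huv u (Sym2.mem_mk_left u v)))
      (key v (hA _ huv v (Sym2.mem_mk_right u v)))
    simpa using this
  have h2 := Submodule.finrank_mono h1
  have h3 := finrank_span_finset_le_card (R := ℚ) s
  have h4 : s.card ≤ (W.erase w0).card := card_image_le
  have h5 := card_erase_add_one hw0
  unfold rk
  have h6 : Module.finrank ℚ (Submodule.span ℚ (s : Set (V → ℚ))) ≤ s.card := h3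
  omega

end Pool.Agent.H38.SD
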