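import Pool.Graph.R_seed8.H239R2.Cover.PlanarP2

set_option autoImplicit false
set_option linter.unusedSectionVars false

/-!
# Abstract faces of a set of edges of a graph with a straight-line drawing
-/

namespace Pool.Agent.H38.SD

open Pool.Agent.H239R2.Planar
open Pool.Agent.H239R2.Planar.P2

noncomputable section

open Classical

section abs

variable {V E : Type} [Fintype V] [Fintype E] {tl hd : E → V} {X Y : V → ℝ}

theorem indep (h : Good tl hd X Y) {δ : ℝ} (hδ : 0 < δ) (hd' : ∀ u v, u ≠ v → δ < |X u - X v|)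
    (W : Finset (Z tl hd →ₗ[ℚ] ℚ)) (hW : 0 ∉ W) (e : E)
    (he : up tl hd X Y δ e ∈ W ∨ dn tl hd X Y δ e ∈ W) :
    ∃ f : E, ¬ (up tl hd X Y δ f ∈ W ↔ dn tl hd X Y δ f ∈ W) := by
  by_contra hemp
  have hall : ∀ f, up tl hd X Y δ f ∈ W ↔ dn tl hd X Y δ f ∈ W := by
    intro f
    by_contra h1
    exact hemp ⟨f, h1⟩
  have he' : up tl hd X Y δ e ∈ W := by
    rcases he with he | he
    · exact he
    · exact (hall e).2 he
  set x : ℝ := X (tl e) + δ with hx
  have hgen : ∀ u, X u ≠ x := gen_add h hδ hd' _
  set C : Finset E := Finset.univ.filter (fun f => X (tl f) < x ∧ x < X (hd f)) with hC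
  have hupC : ∀ f ∈ C, up tl hd X Y δ f = U tl hd X Y f x := by
    intro f hf
    simp only [hC, Finset.mem_filter, Finset.mem_univ, true_and] at hf
    exact up_eq h hδ hd' f hgen hf.1 hf.2
  have heC : e ∈ C := by
    simp only [hC, Finset.mem_filter, Finset.mem_univ, true_and]
    exact ⟨by linarith, len h hδ hd' e⟩
  obtain ⟨f, hf, hmax⟩ := Finset.exists_max_image
    (C.filter (fun f => up tl hd X Y δ f ∈ W)) (fun f => Ht tl hd X Y f x)
    ⟨e, Finset.mem_filter.2 ⟨heC, he'⟩⟩
  rw [Finset.mem_filter] at hf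
  obtain ⟨hfC, hfw⟩ := hf
  by_cases hne : (C.filter (fun g => Ht tl hd X Y f x < Ht tl hd X Y g x)).Nonempty
  · obtain ⟨g, hg, hmin⟩ := Finset.exists_min_image _ (fun g => Ht tl hd X Y g x) hne
    rw [Finset.mem_filter] at hg
    obtain ⟨hgC, hfg⟩ := hg
    have hUfg : U tl hd X Y f x = dn tl hd X Y δ g := by
      unfold dn
      rw [hupC g hgC]
      have hc : U tl hd X Y f x + phi tl hd (fun _ => False) =
          U tl hd X Y g x + phi tl hd (fun k => k = g) := by
        refine phi_comb tl hd _ _ _ _ fun k => ?_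
        rw [if_neg (show ¬ False from id), add_zero]
        rcases eq_or_ne k g with hk | hk
        · subst hk
          have hkC := hgC
          simp only [hC, Finset.mem_filter, Finset.mem_univ, true_and] at hkC
          rw [if_pos ⟨hkC.1, hkC.2, hfg⟩, if_pos rfl, if_neg (by simp)]
          norm_num
        · rw [if_neg hk, add_zero]
          have i1 : (X (tl k) < x ∧ x < X (hd k) ∧ Ht tl hd X Y f x < Ht tl hd X Y k x) ↔
              (X (tl k) < x ∧ x < X (hd k) ∧ Ht tl hd X Y g x < Ht tl hd X Y k x) := by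
            refine and_congr_right fun a1 => and_congr_right fun a2 => ?_
            constructor
            · intro a3
              have hkm := hmin k (Finset.mem_filter.2 ⟨by
                simp only [hC, Finset.mem_filter, Finset.mem_univ, true_and]
                exact ⟨a1, a2⟩, a3⟩)
              have hgC' := hgC
              simp only [hC, Finset.mem_filter, Finset.mem_univ, true_and] at hgC'
              exact lt_of_le_of_ne hkm (h.ne g k hk.symm x hgC'.1 hgC'.2 a1.le a2.le)
            · intro a3
              exact hfg.trans a3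
          exact ite_cg i1
      rw [phi_false tl hd (fun _ => False) (fun _ => id), add_zero] at hc
      exact hc
    have hgw : up tl hd X Y δ g ∈ W := by
      rw [hall g, ← hUfg, ← hupC f hfC]
      exact hfw
    have := hmax g (Finset.mem_filter.2 ⟨hgC, hgw⟩)
    linarith
  · rw [Finset.not_nonempty_iff_eq_empty] at hne
    apply hW
    have h0 : up tl hd X Y δ f = 0 := by
      rw [hupC f hfC]
      unfold U
      refine phi_false tl hd _ fun g hg => ?_
      have : g ∈ C.filter (fun g => Ht tl hd X Y f x < Ht tl hd X Y g x) := by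
        simp only [hC, Finset.mem_filter, Finset.mem_univ, true_and]
        exact ⟨⟨hg.1, hg.2.1⟩, hg.2.2⟩
      rw [hne] at this
      simp at this
    rw [← h0]
    exact hfw

theorem faces (h : Good tl hd X Y) : ∃ (P : Type) (_ : Fintype P) (b : P → Finset E),
    (∀ x v, Even ((b x).filter (fun e => tl e = v ∨ hd e = v)).card) ∧
    (∀ e, (Finset.univ.filter (fun x => e ∈ b x)).card ≤ 2) ∧
    Module.finrank ℚ (Z tl hd) ≤ Fintype.card P ∧
    (∀ S : Finset P, S.Nonempty → ∃ e, (S.filter (fun x => e ∈ b x)).card = 1) := by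
  obtain ⟨δ, hδ, hd'⟩ := exists_delta h.inj
  set W : Finset (Z tl hd →ₗ[ℚ] ℚ) :=
    ((Finset.univ.image (up tl hd X Y δ)) ∪ (Finset.univ.image (dn tl hd X Y δ))).erase 0 with hW
  have hWm : ∀ w ∈ W, w ≠ 0 ∧ ∃ e, up tl hd X Y δ e = w ∨ dn tl hd X Y δ e = w := by
    intro w hw
    simp only [hW, Finset.mem_erase, Finset.mem_union, Finset.mem_image, Finset.mem_univ,
      true_and] at hw
    obtain ⟨h1, ⟨e, he⟩ | ⟨e, he⟩⟩ := hw
    · exact ⟨h1, e, Or.inl he⟩
    · exact ⟨h1, e, Or.inr he⟩
  -- the functionals separate points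
  have hfin : Module.finrank ℚ (Z tl hd) ≤ W.card := by
    let Φ : Z tl hd →ₗ[ℚ] (W → ℚ) := LinearMap.pi (fun w => w.1)
    have hinj : Function.Injective Φ := by
      rw [← LinearMap.ker_eq_bot, LinearMap.ker_eq_bot']
      intro z hz
      have hz' : ∀ w ∈ W, w z = 0 := fun w hw => congrFun hz ⟨w, hw⟩
      have h0 : ∀ w, (∃ e, up tl hd X Y δ e = w ∨ dn tl hd X Y δ e = w) → w z = 0 := by
        rintro w ⟨e, he⟩
        by_cases hw0 : w = 0
        · rw [hw0]; rfl
        · apply hz'
          simp only [hW, Finset.mem_erase, Finset.mem_union, Finset.mem_image, Finset.mem_univ,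
            true_and]
          exact ⟨hw0, he.imp (fun h => ⟨e, h⟩) (fun h => ⟨e, h⟩)⟩
      ext e
      have h1 := h0 _ ⟨e, Or.inl rfl⟩
      have h2 := h0 _ ⟨e, Or.inr rfl⟩
      unfold dn at h2
      rw [LinearMap.add_apply, h1, zero_add, phi_apply] at h2
      simpa using h2
    have := LinearMap.finrank_le_finrank_of_injective hinj
    simpa using this
  refine ⟨W, inferInstance, fun w => bd tl hd X Y δ w.1, ?_, ?_, by simpa using hfin, ?_⟩
  · intro x v
    exact bd_even h hδ hd' x.1 v
  · intro e
    have hsub : ((Finset.univ : Finset W).filter (fun x => e ∈ bd tl hd X Y δ x.1)).image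
        (fun x => x.1) ⊆ {up tl hd X Y δ e, dn tl hd X Y δ e} := by
      intro w hw
      obtain ⟨x, hx, rfl⟩ := Finset.mem_image.1 hw
      simp only [bd, Finset.mem_filter, Finset.mem_univ, true_and] at hx
      simp only [Finset.mem_insert, Finset.mem_singleton]
      by_contra hcon
      push Not at hcon
      exact hx (iff_of_false (Ne.symm hcon.1) (Ne.symm hcon.2))
    have h1 := Finset.card_le_card hsub
    rw [Finset.card_image_of_injective _ Subtype.val_injective] at h1
    exact h1.trans Finset.card_le_two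
  · rintro S ⟨w0, hw0⟩
    set S' : Finset (Z tl hd →ₗ[ℚ] ℚ) := S.image (fun x => x.1) with hS'
    have hS0 : (0 : Z tl hd →ₗ[ℚ] ℚ) ∉ S' := by
      intro h0
      obtain ⟨x, -, hx⟩ := Finset.mem_image.1 h0
      exact (hWm x.1 x.2).1 hx
    obtain ⟨-, e, he⟩ := hWm w0.1 w0.2
    have hw0' : w0.1 ∈ S' := Finset.mem_image_of_mem _ hw0
    obtain ⟨f, hf⟩ := indep h hδ hd' S' hS0 e (by
      rcases he with he | he
      · left; rw [he]; exact hw0'
      · right; rw [he]; exact hw0')
    refine ⟨f, ?_⟩
    rw [Finset.card_eq_one]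
    have key : ∀ a b : Z tl hd →ₗ[ℚ] ℚ, a ∈ S' → b ∉ S' →
        (∀ w, f ∈ bd tl hd X Y δ w ↔ ¬ (a = w ↔ b = w)) →
        ∃ x, S.filter (fun x => f ∈ bd tl hd X Y δ x.1) = {x} := by
      intro a b ha hb hab
      obtain ⟨x, hx, hxa⟩ := Finset.mem_image.1 ha
      refine ⟨x, ?_⟩
      ext y
      simp only [Finset.mem_filter, Finset.mem_singleton]
      constructor
      · rintro ⟨hy, hy2⟩
        rw [hab] at hy2
        have hby : b ≠ y.1 := fun hc => hb (hc ▸ Finset.mem_image_of_mem _ hy)
        have hay : a = y.1 := by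
          by_contra hc
          exact hy2 (iff_of_false hc hby)
        apply Subtype.ext
        rw [← hay, ← hxa]
      · rintro rfl
        refine ⟨hx, ?_⟩
        rw [hab]
        intro hc
        have := hc.1 hxa.symm
        exact hb (this ▸ Finset.mem_image_of_mem _ hx)
    by_cases hup : up tl hd X Y δ f ∈ S'
    · have hdn : dn tl hd X Y δ f ∉ S' := fun hc => hf (iff_of_true hup hc)
      apply key _ _ hup hdn
      intro w
      simp only [bd, Finset.mem_filter, Finset.mem_univ, true_and]
    · have hdn : dn tl hd X Y δ f ∈ S' := by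
        by_contra hc
        exact hf (iff_of_false hup hc)
      apply key _ _ hdn hup
      intro w
      simp only [bd, Finset.mem_filter, Finset.mem_univ, true_and]
      tauto

end abs

/-- an abstract system of faces for a set of edges: every boundary is even, every edge is in at
most two boundaries, there are at least as many faces as the dimension of the cycle space, and
for every nonempty set of faces some edge is in exactly one of their boundaries -/
def HasTB {V : Type} (A : Finset (Sym2 V)) : Prop :=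
  ∃ (P : Type) (_ : Fintype P) (b : P → Finset (Sym2 V)),
    (∀ x, b x ⊆ A) ∧
    (∀ x v, Even ((b x).filter (fun e => v ∈ e)).card) ∧
    (∀ e, (Finset.univ.filter (fun x => e ∈ b x)).card ≤ 2) ∧
    A.card ≤ rk A + Fintype.card P ∧
    (∀ S : Finset P, S.Nonempty → ∃ e, (S.filter (fun x => e ∈ b x)).card = 1)

open Filter Topology in
/-- The faces of a graph with a straight-line drawing in the plane. -/
theorem line_TB {V : Type} [Fintype V] (G : SimpleGraph V) (hG : HasStraightLineDrawing G)
    (A : Finset (Sym2 V)) (hA : (A : Set (Sym2 V)) ⊆ G.edgeSet) : HasTB A := by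
  obtain ⟨p, hp, -, hcr⟩ := hG
  -- a linear change of coordinates making the abscissas distinct
  obtain ⟨ε, hε⟩ : ∃ ε : ℝ, Function.Injective (fun v => (p v).1 + ε * (p v).2) := by
    have h1 : ∀ q : V × V, ∀ᶠ ε : ℝ in 𝓝[>] (0:ℝ), q.1 ≠ q.2 →
        (p q.1).1 + ε * (p q.1).2 ≠ (p q.2).1 + ε * (p q.2).2 := by
      intro q
      by_cases hq : q.1 = q.2
      · exact Filter.Eventually.of_forall fun _ h => absurd hq h
      by_cases h2 : (p q.1).1 = (p q.2).1
      · have h3 : (p q.1).2 ≠ (p q.2).2 := fun h3 => hq (hp (Prod.ext h2 h3))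
        filter_upwards [eventually_mem_nhdsWithin] with ε hε _ h4
        have hε' : (0:ℝ) < ε := hε
        rw [h2] at h4
        exact h3 (mul_left_cancel₀ hε'.ne' (add_left_cancel h4))
      · have h3 : Tendsto (fun ε : ℝ => ((p q.1).1 + ε * (p q.1).2) - ((p q.2).1 + ε * (p q.2).2))
            (𝓝[>] 0) (𝓝 (((p q.1).1 + 0 * (p q.1).2) - ((p q.2).1 + 0 * (p q.2).2))) := by
          refine Tendsto.mono_left ?_ nhdsWithin_le_nhds
          exact Continuous.tendsto (by fun_prop) 0
        have h4 : (((p q.1).1 + 0 * (p q.1).2) - ((p q.2).1 + 0 * (p q.2).2)) ≠ 0 := by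
          simpa [sub_eq_zero] using h2
        filter_upwards [h3.eventually (isOpen_ne.mem_nhds h4)] with ε hε _ h5
        exact hε (sub_eq_zero.2 h5)
    obtain ⟨ε, h2⟩ := (Filter.eventually_all.2 h1).exists
    refine ⟨ε, fun u v huv => ?_⟩
    by_contra hne
    exact h2 (u, v) hne huv
  set X : V → ℝ := fun v => (p v).1 + ε * (p v).2 with hX
  set Y : V → ℝ := fun v => (p v).2 with hY
  let E : Type := {e : V × V // s(e.1, e.2) ∈ A ∧ X e.1 < X e.2}
  let tl : E → V := fun e => e.1.1
  let hd : E → V := fun e => e.1.2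
  have hgood : P2.Good tl hd X Y := by
    refine ⟨hε, fun e => e.2.2, ?_⟩
    rintro ⟨⟨u, v⟩, hA1, h1⟩ ⟨⟨u', v'⟩, hA2, h2⟩ hef x a1 a2 a3 a4 heq
    simp only [tl, hd] at a1 a2 a3 a4 h1 h2 hA1 hA2
    have adj1 : G.Adj u v := G.mem_edgeSet.1 (hA (by exact_mod_cast hA1))
    have adj2 : G.Adj u' v' := G.mem_edgeSet.1 (hA (by exact_mod_cast hA2))
    have hpt : ∀ a b : V, X a < X b → X a ≤ x → x ≤ X b →
        ∃ q ∈ segment ℝ (p a) (p b), q.2 = Y a + (x - X a) * ((Y b - Y a) / (X b - X a)) ∧
          q.1 + ε * q.2 = x := by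
      intro a b hab ha hb
      have hab' : X b - X a ≠ 0 := by linarith
      set t := (x - X a) / (X b - X a) with ht
      have ht' : t * (X b - X a) = x - X a := by rw [ht]; field_simp
      refine ⟨(1 - t) • p a + t • p b, ⟨1 - t, t, ?_, ?_, by ring, rfl⟩, ?_, ?_⟩
      · rw [sub_nonneg, ht, div_le_one (by linarith)]; linarith
      · rw [ht]; apply div_nonneg <;> linarith
      · simp only [Prod.snd_add, Prod.smul_snd, smul_eq_mul, hY]
        rw [ht]
        ring
      · simp only [Prod.snd_add, Prod.smul_snd, smul_eq_mul, Prod.fst_add, Prod.smul_fst]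
        have : (1 - t) * (p a).1 + t * (p b).1 + ε * ((1 - t) * (p a).2 + t * (p b).2) =
            X a + t * (X b - X a) := by simp only [hX]; ring
        rw [this, ht']
        ring
    obtain ⟨q, q1, q2, q3⟩ := hpt u v h1 a1.le a2.le
    obtain ⟨q', q1', q2', q3'⟩ := hpt u' v' h2 a3 a4
    have hq2 : q.2 = q'.2 := by
      rw [q2, q2']
      exact heq
    have hq : q = q' := by
      refine Prod.ext ?_ hq2
      rw [hq2] at q3
      linarith
    rw [← hq] at q1'
    have hss : s(u, v) ≠ s(u', v') := by
      intro hs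
      rw [Sym2.eq_iff] at hs
      rcases hs with ⟨r1, r2⟩ | ⟨r1, r2⟩
      · subst r1; subst r2; exact hef rfl
      · subst r1; subst r2; linarith
    obtain ⟨w, hw1, -, hw3⟩ := hcr u v u' v' adj1 adj2 hss q q1 q1'
    have hXw : X w = x := by
      rw [← q3, hw3]
    rcases hw1 with hw | hw
    · rw [hw] at hXw; linarith
    · rw [hw] at hXw; linarith
  -- the map to the edges
  set em : E → Sym2 V := fun e : E => s(e.1.1, e.1.2) with hem
  have hinj : Function.Injective em := by
    rintro ⟨⟨u, v⟩, hA1, h1⟩ ⟨⟨u', v'⟩, hA2, h2⟩ hs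
    simp only [hem] at hs h1 h2
    rw [Sym2.eq_iff] at hs
    rcases hs with ⟨r1, r2⟩ | ⟨r1, r2⟩
    · subst r1; subst r2; rfl
    · subst r1; subst r2; linarith
  have himg : (Finset.univ : Finset E).image em = A := by
    ext a
    simp only [Finset.mem_image, Finset.mem_univ, true_and]
    constructor
    · rintro ⟨e, rfl⟩; exact e.2.1
    · intro ha
      induction a using Sym2.ind with
      | _ u v =>
        have adj : G.Adj u v := G.mem_edgeSet.1 (hA (by exact_mod_cast ha))
        have hne : X u ≠ X v := fun h => adj.ne (hε h)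
        rcases lt_or_gt_of_ne hne with h1 | h1
        · exact ⟨⟨(u, v), ha, h1⟩, rfl⟩
        · exact ⟨⟨(v, u), by rw [Sym2.eq_swap]; exact ha, h1⟩, Sym2.eq_swap⟩
  have hcard : Fintype.card E = A.card := by
    have h1 := congrArg Finset.card himg
    rw [Finset.card_image_of_injective _ hinj, Finset.card_univ] at h1
    exact h1
  obtain ⟨P, hP, b, b1, b2, b3, b4⟩ := faces hgood
  have hmem : ∀ x (e : E), em e ∈ (b x).image em ↔ e ∈ b x := by
    intro x e
    rw [Finset.mem_image]
    constructor
    · rintro ⟨f, hf, hfe⟩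
      rw [← hinj hfe]; exact hf
    · intro he; exact ⟨e, he, rfl⟩
  refine ⟨P, hP, fun x => (b x).image em, ?_, ?_, ?_, ?_, ?_⟩
  · intro x a ha
    obtain ⟨e, -, rfl⟩ := Finset.mem_image.1 ha
    exact e.2.1
  · intro x v
    rw [Finset.filter_image, Finset.card_image_of_injective _ hinj]
    have h2 := b1 x v
    have h3 : ((b x).filter (fun e : E => v ∈ em e)) =
        (b x).filter (fun e => tl e = v ∨ hd e = v) := by
      refine Finset.filter_congr fun e _ => ?_
      rw [hem, Sym2.mem_iff]
      simp only [tl, hd]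
      tauto
    rw [h3]
    exact h2
  · intro e
    by_cases he : ∃ f, em f = e
    · obtain ⟨f, rfl⟩ := he
      simp only [hmem]
      convert b2 f
    · have : (Finset.univ.filter (fun x : P => e ∈ (b x).image em)) = ∅ := by
        rw [Finset.filter_eq_empty_iff]
        intro x _ hx
        obtain ⟨f, -, hf⟩ := Finset.mem_image.1 hx
        exact he ⟨f, hf⟩
      rw [this]
      simp
  · -- rank
    have hrk : Fintype.card E ≤ rk A + Module.finrank ℚ (P2.Z tl hd) := by
      let D : (E → ℚ) →ₗ[ℚ] (V → ℚ) :=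
        Fintype.linearCombination ℚ (fun e : E => (Pi.single e.1.1 1 - Pi.single e.1.2 1 : V → ℚ))
      have h1 := D.finrank_range_add_finrank_ker
      rw [Module.finrank_fintype_fun_eq_card] at h1
      have h2 : Module.finrank ℚ D.range ≤ rk A := by
        unfold rk
        apply Submodule.finrank_mono
        rw [Fintype.range_linearCombination]
        refine Submodule.span_mono ?_
        rintro _ ⟨e, rfl⟩
        exact ⟨e.1.1, e.1.2, e.2.1, rfl⟩
      have h3 : Module.finrank ℚ D.ker ≤ Module.finrank ℚ (P2.Z tl hd) := by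
        apply Submodule.finrank_mono
        intro z hz v
        rw [LinearMap.mem_ker] at hz
        have h4 := congrFun hz v
        simp only [D, Fintype.linearCombination_apply, Finset.sum_apply, Pi.smul_apply,
          Pi.sub_apply, smul_eq_mul, Pi.zero_apply, mul_sub, Finset.sum_sub_distrib] at h4
        have h5 : ∀ g : E → V, (∑ e : E, z e * (Pi.single (g e) (1:ℚ) : V → ℚ) v) =
            ∑ e : E, if g e = v then z e else 0 := by
          intro g
          refine Finset.sum_congr rfl fun e _ => ?_
          rw [Pi.single_apply]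
          by_cases hv : g e = v
          · rw [if_pos hv, if_pos hv.symm, mul_one]
          · rw [if_neg hv, if_neg (Ne.symm hv), mul_zero]
        have h6 := h5 tl
        have h7 := h5 hd
        simp only [tl, hd] at h6 h7
        rw [h6, h7] at h4
        exact (sub_eq_zero.1 h4).symm
      omega
    rw [hcard] at hrk
    omega
  · intro S hS
    obtain ⟨e, he⟩ := b4 S hS
    refine ⟨em e, ?_⟩
    simp only [hmem]
    convert he

end

end Pool.Agent.H38.SD
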