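import Pool.Agent.H38.SD.Even
import Pool.Graph.R_seed8.Helper805.CHS.Basic

set_option autoImplicit false
set_option linter.unusedSectionVars false

/-!
# Abstract faces exclude the minor `K₅`
-/

namespace Pool.Agent.H38.SD

open Finset
open Pool.Agent.H239R2.Planar (rk)
open Pool.Agent.Helper805.CHS (K5Model)

/-- parity of a sum of numbers at most two -/
theorem par2 {ι : Type} (s : Finset ι) (g : ι → ℕ) (h : ∀ i ∈ s, g i ≤ 2) :
    Even (∑ i ∈ s, g i) ↔ Even (s.filter (fun i => g i = 1)).card := by
  have : ∑ i ∈ s, g i = (s.filter (fun i => g i = 1)).card +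
      2 * (s.filter (fun i => g i = 2)).card := by
    rw [card_filter, card_filter, mul_sum, ← sum_add_distrib]
    apply sum_congr rfl
    intro i hi
    have := h i hi
    split_ifs <;> omega
  rw [this, Nat.even_add]
  simp

/-- the cuts of an even set are even -/
theorem cut_even {V : Type} [Fintype V] [DecidableEq V] (X : Finset (Sym2 V))
    (hX : ∀ v : V, Even (X.filter (fun e => v ∈ e)).card) (W : Finset V) :
    Even (X.filter (fun e => (W.filter (fun v => v ∈ e)).card = 1)).card := by
  rw [← par2 X (fun e => (W.filter (fun v => v ∈ e)).card)]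
  · have h1 := sum_card_bipartiteAbove_eq_sum_card_bipartiteBelow (s := W) (t := X)
      (fun v e => v ∈ e)
    simp only [bipartiteAbove, bipartiteBelow] at h1
    rw [← h1]
    exact even_sum _ (fun v _ => hX v)
  · intro e _
    induction e using Sym2.ind with
    | _ a b =>
      refine (card_le_card (t := {a, b}) ?_).trans card_le_two
      intro v hv
      have := (mem_filter.1 hv).2
      rw [Sym2.mem_iff] at this
      rw [mem_insert, mem_singleton]
      exact this

/-- even sets of pairs -/
theorem three_pairs (X : Finset (Fin 5 × Fin 5)) (hlt : ∀ q ∈ X, q.1 < q.2) (hne : X.Nonempty)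
    (hev : ∀ i : Fin 5, Even (X.filter (fun q => q.1 = i ∨ q.2 = i)).card) : 3 ≤ X.card := by
  by_contra hcon
  have hpos := card_pos.2 hne
  have h12 : X.card = 1 ∨ X.card = 2 := by omega
  rcases h12 with h | h
  · obtain ⟨q, rfl⟩ := card_eq_one.1 h
    have := hev q.1
    rw [filter_singleton, if_pos (Or.inl rfl)] at this
    simp at this
  · obtain ⟨q, q', hqq, rfl⟩ := card_eq_two.1 h
    have key : ∀ i, (q.1 = i ∨ q.2 = i) → (q'.1 = i ∨ q'.2 = i) := by
      intro i hi
      by_contra hno
      have := hev i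
      rw [filter_insert, if_pos hi, filter_singleton, if_neg hno] at this
      simp at this
    have l1 := hlt q (by simp)
    have l2 := hlt q' (by simp)
    have k1 := key q.1 (Or.inl rfl)
    have k2 := key q.2 (Or.inr rfl)
    apply hqq
    rcases k1 with k1 | k1 <;> rcases k2 with k2 | k2
    · rw [← k1, ← k2] at l1; exact absurd l1 (lt_irrefl _)
    · exact Prod.ext k1.symm k2.symm
    · rw [← k1, ← k2] at l1
      exact absurd (l1.trans l2) (lt_irrefl _)
    · rw [← k1, ← k2] at l1; exact absurd l1 (lt_irrefl _)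

open Classical in
/-- no nonempty even set of edges is contained in a forest made of disjoint trees -/
theorem forest {V : Type} [Fintype V] {ι : Type} (f : ι → Set V)
    (hdisj : ∀ i j, i ≠ j → Disjoint (f i) (f j)) (T : ∀ i, SimpleGraph (f i))
    (hT : ∀ i, (T i).IsAcyclic) (X : Finset (Sym2 V)) (hne : X.Nonempty)
    (hX : ∀ e ∈ X, ∃ i, ∃ e' ∈ (T i).edgeSet, Sym2.map Subtype.val e' = e)
    (hev : ∀ v : V, Even (X.filter (fun e => v ∈ e)).card) : False := by
  obtain ⟨e0, he0⟩ := hne
  obtain ⟨i, e1, he1, he1'⟩ := hX e0 he0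
  have hinj : Function.Injective (Sym2.map (Subtype.val : f i → V)) :=
    Sym2.map.injective Subtype.val_injective
  set Y : Finset (Sym2 (f i)) := (Set.toFinite {e | e ∈ (T i).edgeSet ∧
    Sym2.map Subtype.val e ∈ X}).toFinset with hY
  have hYm : ∀ e, e ∈ Y ↔ e ∈ (T i).edgeSet ∧ Sym2.map Subtype.val e ∈ X := by
    intro e
    rw [hY, Set.Finite.mem_toFinset]
    rfl
  obtain ⟨v, c, hc, -⟩ := exists_cycle (G := T i) Y (fun e he => ((hYm e).1 he).1)
    ⟨e1, (hYm e1).2 ⟨he1, by rw [he1']; exact he0⟩⟩ (by
      intro v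
      have h1 : (Y.filter (fun e => v ∈ e)).image (Sym2.map Subtype.val) =
          X.filter (fun e => (v : V) ∈ e) := by
        ext e
        rw [mem_image, mem_filter]
        constructor
        · rintro ⟨e', he', rfl⟩
          obtain ⟨h1, h2⟩ := mem_filter.1 he'
          refine ⟨((hYm e').1 h1).2, ?_⟩
          rw [Sym2.mem_map]
          exact ⟨v, h2, rfl⟩
        · rintro ⟨h1, h2⟩
          obtain ⟨j, e', he', rfl⟩ := hX e h1
          rw [Sym2.mem_map] at h2
          obtain ⟨u, hu, huv⟩ := h2
          have hij : j = i := by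
            by_contra hne
            exact Set.disjoint_left.1 (hdisj j i hne) u.2 (huv ▸ v.2)
          subst hij
          refine ⟨e', mem_filter.2 ⟨(hYm e').2 ⟨he', h1⟩, ?_⟩, rfl⟩
          rw [← Subtype.ext huv]
          exact hu
      have h2 := hev v
      rw [← h1, card_image_of_injective _ hinj] at h2
      convert h2)
  exact hT i c hc

open Classical in
/-- a graph all of whose sets of edges have abstract faces has no `K₅` model -/
theorem no_K5 {V : Type} [Fintype V] (G : SimpleGraph V)
    (hTB : ∀ A : Finset (Sym2 V), (A : Set (Sym2 V)) ⊆ G.edgeSet → HasTB A) : ¬ K5Model G := by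
  rintro ⟨f, hconn, hdisj, hadj⟩
  choose T hT1 hT2 using fun i => (hconn i).exists_isTree_le
  -- tree edges
  have hvinj : ∀ i, Function.Injective (Sym2.map (Subtype.val : f i → V)) := fun i =>
    Sym2.map.injective Subtype.val_injective
  let F : Fin 5 → Finset (Sym2 V) := fun i => (T i).edgeFinset.image (Sym2.map Subtype.val)
  have hFm : ∀ i e, e ∈ F i ↔ ∃ e' ∈ (T i).edgeSet, Sym2.map Subtype.val e' = e := by
    intro i e
    simp only [F, mem_image, SimpleGraph.mem_edgeFinset]
  have hFv : ∀ i e, e ∈ F i → ∀ v ∈ e, v ∈ f i := by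
    intro i e he v hv
    obtain ⟨e', he', rfl⟩ := (hFm i e).1 he
    rw [Sym2.mem_map] at hv
    obtain ⟨u, hu, rfl⟩ := hv
    exact u.2
  have hFG : ∀ i e, e ∈ F i → e ∈ G.edgeSet := by
    intro i e he
    obtain ⟨e', he', rfl⟩ := (hFm i e).1 he
    induction e' using Sym2.ind with
    | _ a b =>
      have h1 : (T i).Adj a b := he'
      exact hT1 i h1
  have hFc : ∀ i, (F i).card + 1 = Fintype.card (f i) := by
    intro i
    have h1 := (hT2 i).card_edgeFinset
    simp only [F]
    rw [card_image_of_injective _ (hvinj i)]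
    convert h1
  -- cross edges
  have hcr : ∀ q : Fin 5 × Fin 5, ∃ p : V × V, q.1 < q.2 → p.1 ∈ f q.1 ∧ p.2 ∈ f q.2 ∧
      G.Adj p.1 p.2 := by
    intro q
    by_cases hq : q.1 < q.2
    · obtain ⟨a, ha, b, hb, hab⟩ := hadj q.1 q.2 hq.ne
      exact ⟨(a, b), fun _ => ⟨ha, hb, hab⟩⟩
    · obtain ⟨⟨x⟩⟩ := (hconn 0).nonempty
      exact ⟨(x, x), fun h => absurd h hq⟩
  choose p hp using hcr
  let c : Fin 5 × Fin 5 → Sym2 V := fun q => s((p q).1, (p q).2)
  set R : Finset (Fin 5 × Fin 5) := univ.filter (fun q => q.1 < q.2) with hR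
  have hRm : ∀ q, q ∈ R ↔ q.1 < q.2 := by intro q; rw [hR, mem_filter]; simp
  have hRc : R.card = 10 := by rw [hR]; decide
  have hidx : ∀ v i j, v ∈ f i → v ∈ f j → i = j := by
    intro v i j hi hj
    by_contra hne
    exact Set.disjoint_left.1 (hdisj i j hne) hi hj
  have hcinj : Set.InjOn c R := by
    intro q hq q' hq' hqq
    obtain ⟨a1, a2, a3⟩ := hp q ((hRm q).1 (mem_coe.1 hq))
    obtain ⟨b1, b2, b3⟩ := hp q' ((hRm q').1 (mem_coe.1 hq'))
    simp only [c, Sym2.eq_iff] at hqq
    rcases hqq with ⟨h1, h2⟩ | ⟨h1, h2⟩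
    · rw [h1] at a1; rw [h2] at a2
      exact Prod.ext (hidx _ _ _ a1 b1) (hidx _ _ _ a2 b2)
    · rw [h1] at a1; rw [h2] at a2
      have e1 := hidx _ _ _ a1 b2
      have e2 := hidx _ _ _ a2 b1
      have l1 := (hRm q).1 (mem_coe.1 hq)
      have l2 := (hRm q').1 (mem_coe.1 hq')
      rw [e1, e2] at l1
      exact absurd (l1.trans l2) (lt_irrefl _)
  set C := R.image c with hC
  have hCc : C.card = 10 := by rw [hC, card_image_of_injOn hcinj, hRc]
  set A := univ.biUnion F ∪ C with hA
  have hdFC : Disjoint (univ.biUnion F) C := by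
    rw [Finset.disjoint_left]
    intro e he he'
    obtain ⟨i, -, hi⟩ := mem_biUnion.1 he
    obtain ⟨q, hq, rfl⟩ := mem_image.1 he'
    obtain ⟨a1, a2, a3⟩ := hp q ((hRm q).1 hq)
    have h1 := hidx _ _ _ a1 (hFv i _ hi _ (Sym2.mem_mk_left _ _))
    have h2 := hidx _ _ _ a2 (hFv i _ hi _ (Sym2.mem_mk_right _ _))
    have l1 := (hRm q).1 hq
    rw [h1, h2] at l1
    exact absurd l1 (lt_irrefl _)
  have hFd : ∀ i ∈ (univ : Finset (Fin 5)), ∀ j ∈ (univ : Finset (Fin 5)), i ≠ j →
      Disjoint (F i) (F j) := by
    intro i _ j _ hij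
    rw [Finset.disjoint_left]
    intro e he he'
    obtain ⟨v, hv⟩ : ∃ v, v ∈ e := by
      induction e using Sym2.ind with
      | _ a b => exact ⟨a, Sym2.mem_mk_left _ _⟩
    exact hij (hidx v i j (hFv i e he v hv) (hFv j e he' v hv))
  have hAc : A.card = ∑ i, (F i).card + 10 := by
    rw [hA, card_union_of_disjoint hdFC, hCc, card_biUnion hFd]
  have hsF : ∑ i, (F i).card + 5 = ∑ i, Fintype.card (f i) := by
    have : ∑ i, Fintype.card (f i) = ∑ i, ((F i).card + 1) :=
      sum_congr rfl (fun i _ => (hFc i).symm)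
    rw [this, sum_add_distrib]
    simp
  have hAG : (A : Set (Sym2 V)) ⊆ G.edgeSet := by
    intro e he
    rcases mem_union.1 (mem_coe.1 he) with he | he
    · obtain ⟨i, -, hi⟩ := mem_biUnion.1 he
      exact hFG i e hi
    · obtain ⟨q, hq, rfl⟩ := mem_image.1 he
      exact (hp q ((hRm q).1 hq)).2.2
  -- rank
  set W : Finset V := univ.biUnion (fun i => (f i).toFinset) with hW
  have hWc : W.card ≤ ∑ i, Fintype.card (f i) := by
    refine card_biUnion_le.trans (sum_le_sum (fun i _ => ?_))
    rw [Set.toFinset_card]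
  have hWm : ∀ v, v ∈ W ↔ ∃ i, v ∈ f i := by
    intro v; simp [hW]
  have hrk : rk A + 1 ≤ W.card := by
    apply rk_le A W
    · obtain ⟨⟨x, hx⟩⟩ := (hconn 0).nonempty
      exact ⟨x, (hWm x).2 ⟨0, hx⟩⟩
    · intro e he v hv
      rw [hWm]
      rcases mem_union.1 he with he | he
      · obtain ⟨i, -, hi⟩ := mem_biUnion.1 he
        exact ⟨i, hFv i e hi v hv⟩
      · obtain ⟨q, hq, rfl⟩ := mem_image.1 he
        obtain ⟨a1, a2, a3⟩ := hp q ((hRm q).1 hq)
        rcases Sym2.mem_iff.1 hv with rfl | rfl
        · exact ⟨_, a1⟩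
        · exact ⟨_, a2⟩
  -- even sets have three cross edges
  have key : ∀ X : Finset (Sym2 V), X ⊆ A → X.Nonempty →
      (∀ v : V, Even (X.filter (fun e => v ∈ e)).card) → 3 ≤ (C.filter (fun e => e ∈ X)).card := by
    intro X hXA hXne hXev
    set XR := R.filter (fun q => c q ∈ X) with hXR
    have h1 : C.filter (fun e => e ∈ X) = XR.image c := by
      ext e
      simp only [hC, hXR, mem_filter, mem_image]
      constructor
      · rintro ⟨⟨q, hq, rfl⟩, he⟩; exact ⟨q, ⟨hq, he⟩, rfl⟩
      · rintro ⟨q, ⟨hq, he⟩, rfl⟩; exact ⟨⟨q, hq, rfl⟩, he⟩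
    have hXRR : XR ⊆ R := filter_subset _ _
    have hinjX : Set.InjOn c XR := hcinj.mono (by exact_mod_cast hXRR)
    rw [h1, card_image_of_injOn hinjX]
    apply three_pairs XR (fun q hq => (hRm q).1 (hXRR hq))
    · -- nonempty
      by_contra hemp
      rw [not_nonempty_iff_eq_empty] at hemp
      apply forest f hdisj T (fun i => (hT2 i).isAcyclic) X hXne _ hXev
      intro e he
      rcases mem_union.1 (hXA he) with he' | he'
      · obtain ⟨i, -, hi⟩ := mem_biUnion.1 he'
        exact ⟨i, (hFm i e).1 hi⟩
      · exfalso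
        obtain ⟨q, hq, rfl⟩ := mem_image.1 he'
        have : q ∈ XR := mem_filter.2 ⟨hq, he⟩
        rw [hemp] at this
        simp at this
    · intro i
      have h2 := cut_even X hXev ((f i).toFinset)
      have h3 : X.filter (fun e => (((f i).toFinset).filter (fun v => v ∈ e)).card = 1) =
          (XR.filter (fun q => q.1 = i ∨ q.2 = i)).image c := by
        ext e
        rw [mem_filter, mem_image]
        constructor
        · rintro ⟨he, hcard⟩
          obtain ⟨v, hv⟩ := card_eq_one.1 hcard
          have hv1 : v ∈ f i ∧ v ∈ e := by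
            have : v ∈ ((f i).toFinset).filter (fun v => v ∈ e) := by rw [hv]; simp
            rw [mem_filter, Set.mem_toFinset] at this
            exact this
          rcases mem_union.1 (hXA he) with he' | he'
          · exfalso
            obtain ⟨j, -, hj⟩ := mem_biUnion.1 he'
            have hij := hidx v i j hv1.1 (hFv j e hj v hv1.2)
            subst hij
            -- both ends in f i
            have hall := hFv i e hj
            have hG := hFG i e hj
            induction e using Sym2.ind with
            | _ a b =>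
              have hab : a ≠ b := (G.mem_edgeSet.1 hG).ne
              have ha : a ∈ ((f i).toFinset).filter (fun v => v ∈ s(a, b)) := by
                rw [mem_filter, Set.mem_toFinset]
                exact ⟨hall a (Sym2.mem_mk_left _ _), Sym2.mem_mk_left _ _⟩
              have hb : b ∈ ((f i).toFinset).filter (fun v => v ∈ s(a, b)) := by
                rw [mem_filter, Set.mem_toFinset]
                exact ⟨hall b (Sym2.mem_mk_right _ _), Sym2.mem_mk_right _ _⟩
              rw [hv, mem_singleton] at ha hb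
              exact hab (ha.trans hb.symm)
          · obtain ⟨q, hq, rfl⟩ := mem_image.1 he'
            obtain ⟨a1, a2, a3⟩ := hp q ((hRm q).1 hq)
            refine ⟨q, mem_filter.2 ⟨mem_filter.2 ⟨hq, he⟩, ?_⟩, rfl⟩
            rcases Sym2.mem_iff.1 hv1.2 with h | h
            · left; rw [← h] at a1; exact hidx _ _ _ a1 hv1.1
            · right; rw [← h] at a2; exact hidx _ _ _ a2 hv1.1
        · rintro ⟨q, hq, rfl⟩
          obtain ⟨hq1, hq2⟩ := mem_filter.1 hq
          obtain ⟨hq3, hq4⟩ := mem_filter.1 hq1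
          have hlt := (hRm q).1 hq3
          obtain ⟨a1, a2, a3⟩ := hp q hlt
          refine ⟨hq4, ?_⟩
          rw [card_eq_one]
          rcases hq2 with h | h
          · refine ⟨(p q).1, ?_⟩
            ext v
            rw [mem_filter, Set.mem_toFinset, mem_singleton]
            constructor
            · rintro ⟨hv1, hv2⟩
              rcases Sym2.mem_iff.1 hv2 with h' | h'
              · exact h'
              · exfalso
                rw [h'] at hv1
                have := hidx _ _ _ a2 hv1
                rw [this, h] at hlt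
                exact lt_irrefl _ hlt
            · rintro rfl
              exact ⟨h ▸ a1, Sym2.mem_mk_left _ _⟩
          · refine ⟨(p q).2, ?_⟩
            ext v
            rw [mem_filter, Set.mem_toFinset, mem_singleton]
            constructor
            · rintro ⟨hv1, hv2⟩
              rcases Sym2.mem_iff.1 hv2 with h' | h'
              · exfalso
                rw [h'] at hv1
                have := hidx _ _ _ a1 hv1
                rw [this, h] at hlt
                exact lt_irrefl _ hlt
              · exact h'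
            · rintro rfl
              exact ⟨h ▸ a2, Sym2.mem_mk_right _ _⟩
      rw [h3, card_image_of_injOn] at h2
      · exact h2
      · exact hinjX.mono (by exact_mod_cast filter_subset _ _)
  -- the faces
  obtain ⟨P, _, b, b1, b2, b3, b4, b5⟩ := hTB A hAG
  have hP6 : 6 ≤ Fintype.card P := by omega
  have hbne : ∀ x, (b x).Nonempty := by
    intro x
    obtain ⟨e, he⟩ := b5 {x} (singleton_nonempty x)
    by_cases hx : e ∈ b x
    · exact ⟨e, hx⟩
    · rw [filter_singleton, if_neg hx] at he
      simp at he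
  set O := A.filter (fun e => (univ.filter (fun x => e ∈ b x)).card = 1) with hO
  have hOne : O.Nonempty := by
    have hPne : (univ : Finset P).Nonempty := by
      rw [← card_pos, card_univ]; omega
    obtain ⟨e, he⟩ := b5 univ hPne
    obtain ⟨x, hx⟩ := card_eq_one.1 he
    have hxe : x ∈ univ.filter (fun x => e ∈ b x) := by rw [hx]; simp
    exact ⟨e, mem_filter.2 ⟨b1 x (mem_filter.1 hxe).2, he⟩⟩
  have hOev : ∀ v : V, Even (O.filter (fun e => v ∈ e)).card := by
    intro v
    have h1 : O.filter (fun e => v ∈ e) = (A.filter (fun e => v ∈ e)).filter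
        (fun e => (univ.filter (fun x => e ∈ b x)).card = 1) := by
      rw [hO, filter_comm]
    rw [h1, ← par2 _ (fun e => (univ.filter (fun x => e ∈ b x)).card) (fun e _ => b3 e)]
    have h2 := sum_card_bipartiteAbove_eq_sum_card_bipartiteBelow (s := (univ : Finset P))
      (t := A.filter (fun e => v ∈ e)) (fun x e => e ∈ b x)
    simp only [bipartiteAbove, bipartiteBelow] at h2
    rw [← h2]
    apply even_sum
    intro x _
    have h3 : (A.filter (fun e => v ∈ e)).filter (fun e => e ∈ b x) =
        (b x).filter (fun e => v ∈ e) := by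
      ext e
      simp only [mem_filter]
      constructor
      · rintro ⟨⟨_, h4⟩, h5⟩; exact ⟨h5, h4⟩
      · rintro ⟨h4, h5⟩; exact ⟨⟨b1 x h4, h5⟩, h4⟩
    rw [h3]
    exact b2 x v
  have hO3 := key O (filter_subset _ _) hOne hOev
  have hb3 : ∀ x, 3 ≤ (C.filter (fun e => e ∈ b x)).card := fun x =>
    key (b x) (b1 x) (hbne x) (b2 x)
  have hcount : ∑ x : P, (C.filter (fun e => e ∈ b x)).card + (C.filter (fun e => e ∈ O)).card ≤
      20 := by
    have h2 := sum_card_bipartiteAbove_eq_sum_card_bipartiteBelow (s := (univ : Finset P))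
      (t := C) (fun x e => e ∈ b x)
    simp only [bipartiteAbove, bipartiteBelow] at h2
    rw [h2, card_filter, ← sum_add_distrib]
    have h20 : 20 = C.card • 2 := by rw [hCc]; rfl
    rw [h20]
    apply sum_le_card_nsmul
    intro e he
    have h4 := b3 e
    split_ifs with h5
    · have := (mem_filter.1 h5).2
      omega
    · omega
  have hlow : Fintype.card P * 3 ≤ ∑ x : P, (C.filter (fun e => e ∈ b x)).card := by
    rw [← card_univ, ← smul_eq_mul]
    exact card_nsmul_le_sum _ _ 3 (fun x _ => hb3 x)
  omega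

end Pool.Agent.H38.SD
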