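import Pool.Agent.H38.SD.Face
import Pool.Graph.R_seed8.H239R2.Cover.PlanarP1

set_option autoImplicit false
set_option linter.unusedSectionVars false

/-!
# Abstract faces of a set of edges of a graph with a planar rotation system
-/

namespace Pool.Agent.H38.SD

open SimpleGraph
open Pool.Agent.H239R2.Planar

noncomputable section

open Classical

/-- The faces of a graph with a rotation system satisfying Euler's formula. -/
theorem rot_TB {V : Type} [Fintype V] (G : SimpleGraph V) (hG : IsPlanar G)
    (A : Finset (Sym2 V)) (hA : (A : Set (Sym2 V)) ⊆ G.edgeSet) : HasTB A := by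
  obtain ⟨σ, hσ, heu⟩ := hG
  -- the cycles supported on `A`
  set L := (bdry G).comp (ext0 G A) with hL
  have h1 := LinearMap.finrank_range_add_finrank_ker L
  rw [Module.finrank_fintype_fun_eq_card] at h1
  have h2 : Fintype.card {e : G.edgeSet // e.1 ∈ A} = A.card := by
    rw [← Fintype.card_coe A]
    apply Fintype.card_congr
    exact
      { toFun := fun e => ⟨e.1.1, e.2⟩
        invFun := fun e => ⟨⟨e.1, hA e.2⟩, e.2⟩
        left_inv := fun _ => rfl
        right_inv := fun _ => rfl }
  have h3 := range_le G A
  rw [← hL] at h3
  -- dimension of the cycle space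
  set P := {X : Reg G σ A // (bdr G σ A X).Nonempty} with hP
  set w : P → (G.edgeSet → ℚ) := fun X => DD G σ (ind G σ A X.1) with hw
  have h4 : (LinearMap.ker L).map (ext0 G A) ≤ Submodule.span ℚ (Set.range w) := by
    rintro _ ⟨y, hy, rfl⟩
    have hy' : bdry G (ext0 G A y) = 0 := hy
    have h5 : ext0 G A y ∈ LinearMap.range (DD G σ) := by
      rw [ker_bdry G hσ heu]
      exact hy'
    obtain ⟨ψ, hψ⟩ := h5
    rw [← hψ]
    apply mem_span_of_supported
    intro d hd
    have h6 : DD G σ ψ ⟨d.edge, d.edge_mem⟩ = 0 := by
      rw [hψ]
      simp [ext0, hd]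
    rw [DD_apply, sub_eq_zero] at h6
    rcases (dart_edge_eq_iff _ _).mp (dt_edge G ⟨d.edge, d.edge_mem⟩) with h7 | h7
    · rw [h7] at h6; exact h6
    · rw [h7, Dart.symm_symm] at h6; exact h6.symm
  -- a basis of the span among the regions
  obtain ⟨Q, hQ1, hQ2⟩ : ∃ Q : Set P, LinearIndependent ℚ (fun x : Q => w x.1) ∧
      Submodule.span ℚ (w '' Q) = Submodule.span ℚ (Set.range w) := by
    obtain ⟨b, hb1, hb2, hb3⟩ := exists_linearIndependent ℚ (Set.range w)
    -- choose preimages
    have hch : ∀ y : b, ∃ x : P, w x = y.1 := fun y => hb1 y.2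
    choose g hg using hch
    refine ⟨Set.range g, ?_, ?_⟩
    · have hginj : Function.Injective g := by
        intro y z hyz
        apply Subtype.ext
        rw [← hg y, ← hg z, hyz]
      let e : b ≃ Set.range g := Equiv.ofInjective g hginj
      rw [← linearIndependent_equiv e]
      have h9 : (fun x : Set.range g => w x.1) ∘ e = Subtype.val := funext fun y => hg y
      rw [h9]
      exact hb3
    · have : w '' Set.range g = b := by
        ext y
        constructor
        · rintro ⟨_, ⟨z, rfl⟩, rfl⟩
          rw [hg]; exact z.2
        · intro hy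
          exact ⟨g ⟨y, hy⟩, ⟨_, rfl⟩, hg _⟩
      rw [this, hb2]
  have hfin : Module.finrank ℚ (LinearMap.ker L) ≤ Fintype.card Q := by
    have h6 := Submodule.finrank_mono h4
    rw [← (Submodule.equivMapOfInjective _ (ext0_inj G A) (LinearMap.ker L)).finrank_eq,
      ← hQ2] at h6
    refine h6.trans ?_
    have h7 : w '' Q = Set.range (fun x : Q => w x.1) := by
      ext y; simp
    rw [h7]
    exact finrank_range_le_card _
  refine ⟨Q, inferInstance, fun X => bdr G σ A X.1.1, ?_, ?_, ?_, ?_, ?_⟩
  · intro X
    exact Finset.filter_subset _ _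
  · intro X v
    exact bdr_even G hσ A X.1.1 v
  · intro e
    by_cases hd : ∃ d : G.Dart, d.edge = e
    · obtain ⟨d, rfl⟩ := hd
      have h5 : (Finset.univ.filter fun X : Q => d.edge ∈ bdr G σ A X.1.1).image
          (fun X => X.1.1) ⊆ {reg G σ A d, reg G σ A d.symm} := by
        intro X hX
        obtain ⟨Y, hY, rfl⟩ := Finset.mem_image.1 hX
        simp only [Finset.mem_filter, Finset.mem_univ, true_and] at hY
        rw [mem_bdr] at hY
        simp only [Finset.mem_insert, Finset.mem_singleton]
        by_contra h
        push Not at h
        exact hY ⟨fun h3 => absurd h3.symm h.1, fun h3 => absurd h3.symm h.2⟩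
      have h6 := Finset.card_le_card h5
      rw [Finset.card_image_of_injective _ (fun X Y hXY =>
        Subtype.ext (Subtype.ext hXY))] at h6
      exact h6.trans Finset.card_le_two
    · have h5 : (Finset.univ.filter fun X : Q => e ∈ bdr G σ A X.1.1) = ∅ := by
        rw [Finset.filter_eq_empty_iff]
        intro X _ hX
        rw [bdr, Finset.mem_filter] at hX
        obtain ⟨_, d, hd', _⟩ := hX
        exact hd ⟨d, hd'⟩
      rw [h5]
      simp
  · have : Fintype.card Q = Fintype.card Q := rfl
    omega
  · rintro S ⟨X0, hX0⟩
    by_contra hcon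
    push Not at hcon
    -- the indicator of the union of the regions in `S`
    set ψ : Face G σ → ℚ := ∑ X ∈ S, ind G σ A X.1.1 with hψ
    have hval : ∀ d : G.Dart, ψ (face G σ d) =
        ((S.filter (fun X => reg G σ A d = X.1.1)).card : ℚ) := by
      intro d
      rw [hψ, Finset.sum_apply, Finset.card_filter]
      push_cast
      apply Finset.sum_congr rfl
      intro X _
      rfl
    have hcard1 : ∀ d : G.Dart, (S.filter (fun X => reg G σ A d = X.1.1)).card ≤ 1 := by
      intro d
      rw [Finset.card_le_one]
      intro X hX Y hY
      apply Subtype.ext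
      apply Subtype.ext
      rw [← (Finset.mem_filter.1 hX).2, ← (Finset.mem_filter.1 hY).2]
    have hzero : DD G σ ψ = 0 := by
      ext e
      rw [DD_apply, Pi.zero_apply, sub_eq_zero, hval, hval]
      set d := dt G e with hd
      by_cases hreg : reg G σ A d = reg G σ A d.symm
      · rw [hreg]
      · -- the edge is in the boundaries of the two regions
        have hc := hcon d.edge
        have hsplit : (S.filter (fun X => d.edge ∈ bdr G σ A X.1.1)).card =
            (S.filter (fun X => reg G σ A d = X.1.1)).card +
            (S.filter (fun X => reg G σ A d.symm = X.1.1)).card := by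
          rw [← Finset.card_union_of_disjoint]
          · congr 1
            ext X
            simp only [Finset.mem_filter, Finset.mem_union, mem_bdr]
            constructor
            · rintro ⟨h1, h2⟩
              by_cases h3 : reg G σ A d = X.1.1
              · exact Or.inl ⟨h1, h3⟩
              · right
                refine ⟨h1, ?_⟩
                by_contra h4
                exact h2 (iff_of_false h3 h4)
            · rintro (⟨h1, h2⟩ | ⟨h1, h2⟩)
              · refine ⟨h1, fun h3 => hreg ?_⟩
                rw [h2, h3.1 h2]
              · refine ⟨h1, fun h3 => hreg ?_⟩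
                rw [h2, h3.2 h2]
          · rw [Finset.disjoint_left]
            intro X hX hY
            apply hreg
            rw [(Finset.mem_filter.1 hX).2, (Finset.mem_filter.1 hY).2]
        have a1 := hcard1 d
        have a2 := hcard1 d.symm
        have a3 : (S.filter (fun X => reg G σ A d = X.1.1)).card =
            (S.filter (fun X => reg G σ A d.symm = X.1.1)).card := by omega
        rw [a3]
    have hdep : ∑ X ∈ S, (1 : ℚ) • w X.1 = 0 := by
      rw [← hzero, hψ, map_sum]
      apply Finset.sum_congr rfl
      intro X _
      rw [one_smul]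
    have := linearIndependent_iff'.1 hQ1 S (fun _ => 1) hdep X0 hX0
    exact one_ne_zero this

end

end Pool.Agent.H38.SD
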