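import Pool.Agent.H38.SD.Cnt
import Pool.Graph.R_pool_sql_team_seeded_63374d34.N888.TF.Hyper3

set_option autoImplicit false
set_option linter.unusedSectionVars false

/-!
# Selection of a good piece
-/

namespace Pool.Agent.H38.SD

open Finset
open Pool.Agent.TH455 (gi gi_symm gi_zero gi_one gi_nz)
open Pool.Agent.N888.TF (dg dg_card dg_mono dg_union dg_sdiff dg_swap)

section
variable {V : Type} [DecidableEq V] (G : SimpleGraph V) (S : Finset V)

/-- twice the number of edges of `G[S]` which meet `T` -/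
noncomputable def F2 (T : Finset V) : ℕ := ∑ v ∈ T, (dg G v T + 2 * dg G v (S \ T))

theorem F2_rem {X T : Finset V} (hXT : X ⊆ T) (hTS : T ⊆ S) :
    F2 G S (T \ X) + ∑ v ∈ X, (dg G v X + 2 * dg G v (S \ T)) = F2 G S T := by
  unfold F2
  set T' := T \ X with hT'
  have hdis : Disjoint T' X := sdiff_disjoint
  have hTu : T' ∪ X = T := sdiff_union_of_subset hXT
  have hST' : S \ T' = (S \ T) ∪ X := by
    ext x
    simp only [hT', mem_sdiff, mem_union]
    have h1 := @hXT x
    have h2 := @hTS x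
    tauto
  have hdis2 : Disjoint (S \ T) X := by
    rw [disjoint_left]
    intro x hx hx'
    exact (mem_sdiff.1 hx).2 (hXT hx')
  have e1 : ∑ v ∈ T, (dg G v T + 2 * dg G v (S \ T)) =
      ∑ v ∈ T', (dg G v T + 2 * dg G v (S \ T)) + ∑ v ∈ X, (dg G v T + 2 * dg G v (S \ T)) := by
    rw [← hTu, sum_union hdis, hTu]
  have e2 : ∑ v ∈ T', (dg G v T + 2 * dg G v (S \ T)) =
      ∑ v ∈ T', dg G v T' + ∑ v ∈ T', dg G v X + 2 * ∑ v ∈ T', dg G v (S \ T) := by
    rw [mul_sum, ← sum_add_distrib, ← sum_add_distrib]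
    apply sum_congr rfl
    intro v _
    rw [← dg_union G v hdis, hTu]
  have e3 : ∑ v ∈ X, (dg G v T + 2 * dg G v (S \ T)) =
      ∑ v ∈ X, dg G v T' + ∑ v ∈ X, (dg G v X + 2 * dg G v (S \ T)) := by
    rw [← sum_add_distrib]
    apply sum_congr rfl
    intro v _
    rw [← hTu, dg_union G v hdis, hTu]
    ring
  have e4 : ∑ v ∈ T', (dg G v T' + 2 * dg G v (S \ T')) =
      ∑ v ∈ T', dg G v T' + 2 * ∑ v ∈ T', dg G v (S \ T) + 2 * ∑ v ∈ T', dg G v X := by
    rw [mul_sum, mul_sum, ← sum_add_distrib, ← sum_add_distrib]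
    apply sum_congr rfl
    intro v _
    rw [hST', dg_union G v hdis2]
    ring
  have e5 : ∑ v ∈ X, dg G v T' = ∑ v ∈ T', dg G v X := dg_swap G X T'
  omega

/-- the conditions on a piece -/
def OK (T : Finset V) : Prop :=
  (∀ X ⊆ T, X.Nonempty → 1000 * ∑ v ∈ X, (dg G v X + 2 * dg G v (S \ T)) ≤ 4002 * X.card) ∧
  (∀ a ∈ T, ∀ b ∈ T, ∀ c ∈ T, G.Adj a b → G.Adj b c → G.Adj c a →
    dg G a (S \ T) = 0 ∨ dg G b (S \ T) = 0 ∨ dg G c (S \ T) = 0)

theorem tri_sum {a b c : V} (hab : G.Adj a b) (hbc : G.Adj b c) (hca : G.Adj c a)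
    (Y : Finset V) (ha : 1 ≤ dg G a Y) (hb : 1 ≤ dg G b Y) (hc : 1 ≤ dg G c Y) :
    12 ≤ ∑ v ∈ ({a, b, c} : Finset V), (dg G v {a, b, c} + 2 * dg G v Y) := by
  have n1 := hab.ne
  have n2 := hbc.ne
  have n3 := hca.ne
  have key : ∀ v, dg G v ({a, b, c} : Finset V) = gi G v a + (gi G v b + gi G v c) := by
    intro v
    unfold dg
    rw [sum_insert (by simp [n1, n3.symm]), sum_pair n2]
  rw [sum_insert (by simp [n1, n3.symm]), sum_pair n2, key, key, key, gi_zero, gi_zero, gi_zero,
    gi_one hab, gi_one hab.symm, gi_one hbc, gi_one hbc.symm, gi_one hca, gi_one hca.symm]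
  omega

variable {G S}

/-- Case A: some bounded set meets few edges -/
theorem caseA (K : ℕ) (h : ∃ T ⊆ S, T.Nonempty ∧ T.card ≤ K ∧ F2 G S T < 4 * T.card) :
    ∃ T ⊆ S, T.Nonempty ∧ T.card ≤ K ∧ OK G S T := by
  classical
  obtain ⟨A, hAS, hAne, hAK, hA⟩ := h
  obtain ⟨T, hTm, hTmin⟩ := exists_min_image (S.powerset.filter (fun T => T.Nonempty ∧
    T.card ≤ K ∧ F2 G S T < 4 * T.card)) card
    ⟨A, mem_filter.2 ⟨mem_powerset.2 hAS, hAne, hAK, hA⟩⟩
  obtain ⟨hT1, hTne, hTK, hT⟩ := mem_filter.1 hTm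
  have hTS := mem_powerset.1 hT1
  have key : ∀ X ⊆ T, X.Nonempty → ∑ v ∈ X, (dg G v X + 2 * dg G v (S \ T)) < 4 * X.card := by
    intro X hXT hXne
    have hrem := F2_rem G S hXT hTS
    have hcard : (T \ X).card + X.card = T.card := card_sdiff_add_card_eq_card hXT
    have hXpos : 0 < X.card := card_pos.2 hXne
    by_cases hT'e : T \ X = ∅
    · rw [hT'e] at hrem hcard
      have h0 : F2 G S ∅ = 0 := by unfold F2; simp
      rw [h0] at hrem
      simp at hcard
      omega
    · have hT'ne : (T \ X).Nonempty := nonempty_iff_ne_empty.2 hT'e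
      have hbig : 4 * (T \ X).card ≤ F2 G S (T \ X) := by
        by_contra hcon
        have := hTmin (T \ X) (mem_filter.2 ⟨mem_powerset.2 (sdiff_subset.trans hTS), hT'ne,
          by omega, by omega⟩)
        omega
      omega
  refine ⟨T, hTS, hTne, hTK, ?_, ?_⟩
  · intro X hXT hXne
    have := key X hXT hXne
    omega
  · intro a ha b hb c hc hab hbc hca
    by_contra hcon
    push Not at hcon
    obtain ⟨h1, h2, h3⟩ := hcon
    have h4 := tri_sum G hab hbc hca (S \ T) (by omega) (by omega) (by omega)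
    have h5 := key {a, b, c} (by
      intro x hx
      simp only [mem_insert, mem_singleton] at hx
      rcases hx with rfl | rfl | rfl
      · exact ha
      · exact hb
      · exact hc) ⟨a, by simp⟩
    have h6 : ({a, b, c} : Finset V).card ≤ 3 := card_le_three
    omega

variable (G S)

open Classical in
/-- defect weight -/
noncomputable def wD (v : V) : ℕ := if dg G v S ≠ 4 ∨ ntd G S v ≠ 0 then dg G v S else 0

theorem dg_le_wD (v : V) : dg G v S ≤ 4 + wD G S v := by
  unfold wD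
  split_ifs with h
  · omega
  · push Not at h
    omega

theorem exists_of_dg_pos {v : V} {Y : Finset V} (h : 1 ≤ dg G v Y) : ∃ u ∈ Y, G.Adj v u := by
  by_contra hcon
  push Not at hcon
  have : dg G v Y = 0 := by
    unfold dg
    exact sum_eq_zero (fun u hu => gi_nz (hcon u hu))
  omega

theorem dg_pos {v u : V} {Y : Finset V} (hu : u ∈ Y) (h : G.Adj v u) : 1 ≤ dg G v Y := by
  unfold dg
  rw [← gi_one h]
  exact single_le_sum (f := fun u => gi G v u) (fun _ _ => Nat.zero_le _) hu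

/-- the number of boundary vertices -/
noncomputable def bd (T : Finset V) : ℕ := (T.filter (fun v => 1 ≤ dg G v (S \ T))).card

theorem bd_alpha {X T : Finset V} (hXT : X ⊆ T) (hTS : T ⊆ S) :
    bd G S (T \ X) ≤ bd G S T + (4 * X.card + ∑ v ∈ X, wD G S v) := by
  have h1 : (T \ X).filter (fun v => 1 ≤ dg G v (S \ (T \ X))) ⊆
      T.filter (fun v => 1 ≤ dg G v (S \ T)) ∪ (T \ X).filter (fun v => 1 ≤ dg G v X) := by
    intro v hv
    obtain ⟨hvT, hv1⟩ := mem_filter.1 hv
    obtain ⟨u, hu, hvu⟩ := exists_of_dg_pos G hv1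
    rw [mem_union, mem_filter, mem_filter]
    by_cases huX : u ∈ X
    · right; exact ⟨hvT, dg_pos G huX hvu⟩
    · left
      refine ⟨(mem_sdiff.1 hvT).1, dg_pos G (u := u) ?_ hvu⟩
      rw [mem_sdiff] at hu ⊢
      refine ⟨hu.1, fun h => hu.2 (mem_sdiff.2 ⟨h, huX⟩)⟩
  have h2 : ((T \ X).filter (fun v => 1 ≤ dg G v X)).card ≤ ∑ v ∈ T \ X, dg G v X := by
    rw [card_filter]
    apply sum_le_sum
    intro v _
    split_ifs with h
    · exact h
    · exact Nat.zero_le _
  have h3 : ∑ v ∈ T \ X, dg G v X ≤ ∑ v ∈ X, (4 + wD G S v) := by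
    rw [dg_swap]
    apply sum_le_sum
    intro v _
    exact (dg_mono G v (sdiff_subset.trans hTS)).trans (dg_le_wD G S v)
  rw [sum_add_distrib, sum_const, smul_eq_mul] at h3
  have h4 := (card_le_card h1).trans (card_union_le _ _)
  unfold bd
  omega

/-- a vertex of a tight triangle without defect creates no new boundary vertices -/
theorem no_new (hG : NoC45 G) {T : Finset V} (hTS : T ⊆ S) {a b c v : V} (ha : a ∈ T)
    (hb : b ∈ T) (hc : c ∈ T) (hab : G.Adj a b) (hbc : G.Adj b c) (hca : G.Adj c a)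
    (hout : 1 ≤ dg G a (S \ T)) (hD : wD G S a = 0) (hvT : v ∈ T) (hvb : v ≠ b) (hvc : v ≠ c)
    (hav : G.Adj a v) : 1 ≤ dg G v (S \ T) := by
  classical
  have h4 : dg G a S = 4 ∧ ntd G S a = 0 := by
    unfold wD at hD
    split_ifs at hD with h
    · rcases h with h | h
      · have h1 := dg_pos G (hTS hb) hab
        omega
      · have h1 := dg_pos G (hTS hb) hab
        omega
    · push Not at h
      exact h
  obtain ⟨u, hu, hau⟩ := exists_of_dg_pos G hout
  obtain ⟨huS, huT⟩ := mem_sdiff.1 hu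
  -- the edge a u is in a triangle
  have hnt : ¬ (∀ w ∈ S, ¬ (G.Adj a w ∧ G.Adj u w)) := by
    intro hcon
    have h0 := h4.2
    unfold ntd at h0
    rw [card_eq_zero, filter_eq_empty_iff] at h0
    exact h0 huS ⟨hau, hcon⟩
  push Not at hnt
  obtain ⟨w, hwS, haw, huw⟩ := hnt
  have hub : u ≠ b := fun h => huT (h ▸ hb)
  have huc : u ≠ c := fun h => huT (h ▸ hc)
  have huv : u ≠ v := fun h => huT (h ▸ hvT)
  have hset : ({b, c, u, v} : Finset V) = S.filter (fun y => G.Adj a y) := by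
    apply eq_of_subset_of_card_le
    · intro y hy
      simp only [mem_insert, mem_singleton] at hy
      rw [mem_filter]
      rcases hy with rfl | rfl | rfl | rfl
      · exact ⟨hTS hb, hab⟩
      · exact ⟨hTS hc, hca.symm⟩
      · exact ⟨huS, hau⟩
      · exact ⟨hTS hvT, hav⟩
    · rw [← dg_card, h4.1, card_insert_of_notMem, card_insert_of_notMem, card_pair huv]
      · simp only [mem_insert, mem_singleton, not_or]
        exact ⟨huc.symm, hvc.symm⟩
      · simp only [mem_insert, mem_singleton, not_or]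
        exact ⟨hbc.ne, hub.symm, hvb.symm⟩
  have hw : w ∈ ({b, c, u, v} : Finset V) := by
    rw [hset, mem_filter]
    exact ⟨hwS, haw⟩
  simp only [mem_insert, mem_singleton] at hw
  rcases hw with rfl | rfl | rfl | rfl
  · exact (noC4 hG huw hbc hca hau huc hab.ne.symm).elim
  · exact (noC4 hG huw hbc.symm hab.symm hau hub hca.ne).elim
  · exact absurd rfl huw.ne
  · exact dg_pos G hu huw.symm

theorem bd_beta (hG : NoC45 G) {T : Finset V} (hTS : T ⊆ S) {a b c : V} (ha : a ∈ T)
    (hb : b ∈ T) (hc : c ∈ T) (hab : G.Adj a b) (hbc : G.Adj b c) (hca : G.Adj c a)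
    (h1 : 1 ≤ dg G a (S \ T)) (h2 : 1 ≤ dg G b (S \ T)) (h3 : 1 ≤ dg G c (S \ T)) :
    bd G S (T \ {a, b, c}) + 3 ≤ bd G S T + ∑ v ∈ ({a, b, c} : Finset V), wD G S v := by
  classical
  set X : Finset V := {a, b, c} with hX
  have hXc : X.card = 3 := by
    rw [hX, card_eq_three]
    exact ⟨a, b, c, hab.ne, hca.ne.symm, hbc.ne, rfl⟩
  have hXT : X ⊆ T := by
    intro x hx
    simp only [hX, mem_insert, mem_singleton] at hx
    rcases hx with rfl | rfl | rfl
    · exact ha
    · exact hb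
    · exact hc
  have hXB : X ⊆ T.filter (fun v => 1 ≤ dg G v (S \ T)) := by
    intro x hx
    rw [mem_filter]
    refine ⟨hXT hx, ?_⟩
    simp only [hX, mem_insert, mem_singleton] at hx
    rcases hx with rfl | rfl | rfl
    · exact h1
    · exact h2
    · exact h3
  have hsub : (T \ X).filter (fun v => 1 ≤ dg G v (S \ (T \ X))) ⊆
      (T.filter (fun v => 1 ≤ dg G v (S \ T)) \ X) ∪
        (X.filter (fun u => wD G S u ≠ 0)).biUnion (fun u => S.filter (fun y => G.Adj u y)) := by
    intro v hv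
    obtain ⟨hvT, hv1⟩ := mem_filter.1 hv
    obtain ⟨u, hu, hvu⟩ := exists_of_dg_pos G hv1
    obtain ⟨hvT1, hvX⟩ := mem_sdiff.1 hvT
    rw [mem_union]
    by_cases hold : 1 ≤ dg G v (S \ T)
    · left
      exact mem_sdiff.2 ⟨mem_filter.2 ⟨hvT1, hold⟩, hvX⟩
    · right
      have huX : u ∈ X := by
        by_contra huX
        apply hold
        refine dg_pos G (u := u) ?_ hvu
        rw [mem_sdiff] at hu ⊢
        exact ⟨hu.1, fun h => hu.2 (mem_sdiff.2 ⟨h, huX⟩)⟩
      rw [mem_biUnion]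
      refine ⟨u, mem_filter.2 ⟨huX, ?_⟩, mem_filter.2 ⟨hTS hvT1, hvu.symm⟩⟩
      intro hD
      apply hold
      have hva : v ≠ a := by rintro rfl; exact hvX (by simp [hX])
      have hvb : v ≠ b := by rintro rfl; exact hvX (by simp [hX])
      have hvc : v ≠ c := by rintro rfl; exact hvX (by simp [hX])
      simp only [hX, mem_insert, mem_singleton] at huX
      rcases huX with rfl | rfl | rfl
      · exact no_new G S hG hTS ha hb hc hab hbc hca h1 hD hvT1 hvb hvc hvu.symm
      · exact no_new G S hG hTS hb hc ha hbc hca hab h2 hD hvT1 hvc hva hvu.symm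
      · exact no_new G S hG hTS hc ha hb hca hab hbc h3 hD hvT1 hva hvb hvu.symm
  have hc1 := (card_le_card hsub).trans (card_union_le _ _)
  have hc2 := card_sdiff_add_card_eq_card hXB
  have hc3 : ((X.filter (fun u => wD G S u ≠ 0)).biUnion
      (fun u => S.filter (fun y => G.Adj u y))).card ≤ ∑ v ∈ X, wD G S v := by
    refine card_biUnion_le.trans ?_
    refine le_trans ?_ (sum_le_sum_of_subset (filter_subset (fun u => wD G S u ≠ 0) X))
    apply sum_le_sum
    intro u hu
    have hu2 := (mem_filter.1 hu).2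
    rw [← dg_card]
    unfold wD at hu2 ⊢
    split_ifs at hu2 ⊢ with h
    · exact le_rfl
    · exact absurd rfl hu2
  unfold bd
  omega

/-- the potential -/
noncomputable def Phi (T : Finset V) : ℤ :=
  2500 * ((F2 G S T : ℤ) - 4 * T.card) + bd G S T + ∑ v ∈ T, (wD G S v : ℤ) - T.card

/-- the selection of a piece -/
theorem select (hG : NoC45 G) {A : Finset V} (hAS : A ⊆ S)
    (hA : 2500 * ((F2 G S A : ℤ) - 4 * A.card) + ∑ v ∈ A, (dg G v (S \ A) : ℤ) +
      ∑ v ∈ A, (wD G S v : ℤ) < A.card) :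
    ∃ T ⊆ A, T.Nonempty ∧ OK G S T := by
  classical
  have hbdA : (bd G S A : ℤ) ≤ ∑ v ∈ A, (dg G v (S \ A) : ℤ) := by
    unfold bd
    rw [card_filter]
    push_cast
    apply sum_le_sum
    intro v _
    split_ifs with h
    · exact_mod_cast h
    · exact_mod_cast Nat.zero_le _
  have hPA : Phi G S A < 0 := by
    unfold Phi
    linarith
  have hP0 : Phi G S ∅ = 0 := by
    unfold Phi F2 bd
    simp
  obtain ⟨T, hTm, hTmin⟩ := exists_min_image A.powerset
    (fun T => ((A.card : ℤ) + 1) * Phi G S T + T.card) ⟨A, mem_powerset_self A⟩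
  have hTA := mem_powerset.1 hTm
  have hTS := hTA.trans hAS
  have hmin : ∀ T' ⊆ T, T'.card < T.card → Phi G S T < Phi G S T' := by
    intro T' hT' hlt
    by_contra hcon
    push Not at hcon
    have h1 := hTmin T' (mem_powerset.2 (hT'.trans hTA))
    have h2 : ((A.card : ℤ) + 1) * Phi G S T' ≤ ((A.card : ℤ) + 1) * Phi G S T :=
      mul_le_mul_of_nonneg_left hcon (by positivity)
    have h3 : (T'.card : ℤ) < T.card := by exact_mod_cast hlt
    linarith
  have hTne : T.Nonempty := by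
    rw [nonempty_iff_ne_empty]
    rintro rfl
    have h1 := hTmin A (mem_powerset_self A)
    simp only [hP0, card_empty] at h1
    have h2 : Phi G S A ≤ -1 := by omega
    have h3 : ((A.card : ℤ) + 1) * Phi G S A ≤ ((A.card : ℤ) + 1) * (-1) :=
      mul_le_mul_of_nonneg_left h2 (by positivity)
    push_cast at h1
    linarith
  have hstep : ∀ X ⊆ T, X.Nonempty →
      (bd G S (T \ X) : ℤ) ≤ bd G S T + 2500 * ((∑ v ∈ X, (dg G v X + 2 * dg G v (S \ T)) : ℕ) : ℤ)
        - 10000 * X.card - X.card + ∑ v ∈ X, (wD G S v : ℤ) → False := by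
    intro X hXT hXne hb
    have hcard : (T \ X).card + X.card = T.card := card_sdiff_add_card_eq_card hXT
    have hXpos : 0 < X.card := card_pos.2 hXne
    have h1 := hmin (T \ X) sdiff_subset (by omega)
    have hrem := F2_rem G S hXT hTS
    have hw : ∑ v ∈ T \ X, (wD G S v : ℤ) + ∑ v ∈ X, (wD G S v : ℤ) = ∑ v ∈ T, (wD G S v : ℤ) :=
      sum_sdiff hXT
    unfold Phi at h1
    have hrem' : (F2 G S (T \ X) : ℤ) + ((∑ v ∈ X, (dg G v X + 2 * dg G v (S \ T)) : ℕ) : ℤ) =
        F2 G S T := by exact_mod_cast hrem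
    have hcard' : ((T \ X).card : ℤ) + X.card = T.card := by exact_mod_cast hcard
    linarith
  refine ⟨T, hTA, hTne, ?_, ?_⟩
  · intro X hXT hXne
    by_contra hcon
    push Not at hcon
    apply hstep X hXT hXne
    have h1 := bd_alpha G S hXT hTS
    have h1' : (bd G S (T \ X) : ℤ) ≤ bd G S T + (4 * X.card + ∑ v ∈ X, (wD G S v : ℤ)) := by
      exact_mod_cast h1
    have h2 : (4002 : ℤ) * X.card < 1000 * ((∑ v ∈ X, (dg G v X + 2 * dg G v (S \ T)) : ℕ) : ℤ) := by
      exact_mod_cast hcon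
    linarith
  · intro a ha b hb c hc hab hbc hca
    by_contra hcon
    push Not at hcon
    obtain ⟨h1, h2, h3⟩ := hcon
    have h4 := tri_sum G hab hbc hca (S \ T) (by omega) (by omega) (by omega)
    have h5 := bd_beta G S hG hTS ha hb hc hab hbc hca (by omega) (by omega) (by omega)
    have h6 : ({a, b, c} : Finset V).card = 3 := by
      rw [card_eq_three]
      exact ⟨a, b, c, hab.ne, hca.ne.symm, hbc.ne, rfl⟩
    apply hstep {a, b, c} (by
      intro x hx
      simp only [mem_insert, mem_singleton] at hx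
      rcases hx with rfl | rfl | rfl
      · exact ha
      · exact hb
      · exact hc) ⟨a, by simp⟩
    have h5' : (bd G S (T \ {a, b, c}) : ℤ) + 3 ≤ bd G S T +
        ∑ v ∈ ({a, b, c} : Finset V), (wD G S v : ℤ) := by exact_mod_cast h5
    have h4' : (12 : ℤ) ≤ ((∑ v ∈ ({a, b, c} : Finset V),
        (dg G v {a, b, c} + 2 * dg G v (S \ T)) : ℕ) : ℤ) := by exact_mod_cast h4
    rw [h6]
    push_cast at h4' ⊢
    linarith

end

end Pool.Agent.H38.SD
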