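import Pool.Agent.H38.SD.StrictC
import Pool.Agent.H38.SD.Piece1

set_option autoImplicit false
set_option linter.unusedSectionVars false

/-!
# Existence of a good piece
-/

namespace Pool.Agent.H38.SD

open Finset
open Pool.Agent.TH455 (gi gi_symm gi_zero gi_one gi_nz ind ind_pos ind_neg ind_le)
open Pool.Agent.N888.TF (dg dg_card dg_mono dg_union dg_sdiff dg_swap dg_single dg_pair dg_pair'
  sz iterate cl mem_cl wt)
open Pool.Agent.Helper805.CHS (K5Model)

section
variable {V : Type} [Fintype V] [DecidableEq V] {G : SimpleGraph V} {S : Finset V}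

/-- the degree-two vertices in a triangle -/
theorem Z0_bound (hG : NoC45 G) (hTB : ∀ S : Finset V, S.Nonempty → HasTB (ES G S))
    (hS : S.Nonempty) (hadj : ∀ u ∈ S, ∀ v ∈ S, G.Adj u v → 5 ≤ dg G u S + dg G v S)
    (Z : Finset V) (hZ : ∀ v, v ∈ Z ↔ v ∈ S ∧ dg G v S = 2 ∧ ntd G S v = 0) :
    3 * ∑ v ∈ S, dg G v S + 2 * Z.card + 12 ≤ 12 * S.card := by
  classical
  have hZS : Z ⊆ S := fun v hv => ((hZ v).1 hv).1
  have hdat : ∀ v, ∃ e : Sym2 V, v ∈ Z → ∃ a b, e = s(a, b) ∧ a ∈ S \ Z ∧ b ∈ S \ Z ∧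
      G.Adj a b ∧ G.Adj v a ∧ G.Adj v b := by
    intro v
    by_cases hv : v ∈ Z
    · obtain ⟨hvS, hv2, hv0⟩ := (hZ v).1 hv
      rw [dg_card, card_eq_two] at hv2
      obtain ⟨a, b, hab, hset⟩ := hv2
      have ha : a ∈ S.filter (fun y => G.Adj v y) := by rw [hset]; simp
      have hb : b ∈ S.filter (fun y => G.Adj v y) := by rw [hset]; simp
      rw [mem_filter] at ha hb
      have hnZ : ∀ u ∈ S, G.Adj v u → u ∉ Z := by
        intro u hu hvu huZ
        have h1 := hadj v hvS u hu hvu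
        have h2 := ((hZ u).1 huZ).2.1
        have h3 := ((hZ v).1 hv).2.1
        omega
      obtain ⟨w, hw, hvw, haw⟩ := partner hv0 ha.1 ha.2
      have hw' : w ∈ S.filter (fun y => G.Adj v y) := mem_filter.2 ⟨hw, hvw⟩
      rw [hset, mem_insert, mem_singleton] at hw'
      have hwb : w = b := by
        rcases hw' with h | h
        · rw [h] at haw; exact absurd rfl haw.ne
        · exact h
      rw [hwb] at haw
      exact ⟨s(a, b), fun _ => ⟨a, b, rfl, mem_sdiff.2 ⟨ha.1, hnZ a ha.1 ha.2⟩,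
        mem_sdiff.2 ⟨hb.1, hnZ b hb.1 hb.2⟩, haw, ha.2, hb.2⟩⟩
    · exact ⟨s(v, v), fun h => absurd h hv⟩
  choose g hg using hdat
  have hcardZ : Z.card ≤ (NS G (S \ Z)).card := by
    apply card_le_card_of_injOn g
    · intro v hv
      have hv' := mem_coe.1 hv
      obtain ⟨a, b, he, ha, hb, hab, hva, hvb⟩ := hg v hv'
      rw [mem_coe, he, mem_NS]
      refine ⟨mk_mem_ES.2 ⟨hab, ha, hb⟩, ?_⟩
      rintro ⟨T, hT, hTS, heT⟩
      obtain ⟨w, k1, k2, k3⟩ := hT.of_mem heT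
      have hw : w ∈ S \ Z := by
        have : s(b, w) ∈ ES G (S \ Z) := hTS (by rw [k3]; simp)
        exact (mk_mem_ES.1 this).2.2
      have hvw : v ≠ w := by
        rintro rfl
        exact (mem_sdiff.1 hw).2 hv'
      exact noC4 hG hva k1 k2.symm hvb.symm hvw hab.ne
    · intro v hv v' hv' hvv
      by_contra hne
      obtain ⟨a, b, he, ha, hb, hab, hva, hvb⟩ := hg v (mem_coe.1 hv)
      obtain ⟨a', b', he', ha', hb', hab', hva', hvb'⟩ := hg v' (mem_coe.1 hv')
      rw [he, he', Sym2.eq_iff] at hvv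
      rcases hvv with ⟨rfl, rfl⟩ | ⟨rfl, rfl⟩
      · exact noC4 hG hva hva'.symm hvb' hvb.symm hne hab.ne
      · exact noC4 hG hva hvb'.symm hva' hvb.symm hne hab.ne
  have hS1 : (S \ Z).Nonempty := by
    by_cases hZe : Z.Nonempty
    · obtain ⟨v, hv⟩ := hZe
      obtain ⟨a, b, he, ha, -⟩ := hg v hv
      exact ⟨a, ha⟩
    · rw [not_nonempty_iff_eq_empty] at hZe
      rw [hZe, sdiff_empty]; exact hS
  have hcnt := (counts hG (S \ Z) hS1 (hTB _ hS1)).1
  have hES := ES_sum (G := G) (S \ Z)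
  have hcard : (S \ Z).card + Z.card = S.card := card_sdiff_add_card_eq_card hZS
  -- the degree sums
  have e1 : ∑ v ∈ S \ Z, dg G v S + ∑ v ∈ Z, dg G v S = ∑ v ∈ S, dg G v S := sum_sdiff hZS
  have e2 : ∑ v ∈ Z, dg G v S = 2 * Z.card := by
    rw [sum_congr rfl (fun v hv => ((hZ v).1 hv).2.1), sum_const, smul_eq_mul, mul_comm]
  have e3 : ∀ Y : Finset V, ∑ v ∈ Y, dg G v S = ∑ v ∈ Y, dg G v (S \ Z) + ∑ v ∈ Y, dg G v Z := by
    intro Y
    rw [← sum_add_distrib]
    exact sum_congr rfl (fun v _ => (dg_sdiff G v hZS).symm)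
  have e4 : ∑ v ∈ Z, dg G v Z = 0 := by
    apply sum_eq_zero
    intro v hv
    unfold dg
    apply sum_eq_zero
    intro u hu
    apply gi_nz
    intro hvu
    have h1 := hadj v (hZS hv) u (hZS hu) hvu
    have h2 := ((hZ u).1 hu).2.1
    have h3 := ((hZ v).1 hv).2.1
    omega
  have e5 := e3 (S \ Z)
  have e6 := e3 Z
  have e7 : ∑ v ∈ S \ Z, dg G v Z = ∑ v ∈ Z, dg G v (S \ Z) := dg_swap G (S \ Z) Z
  omega

theorem deg3 (hG : NoC45 G) {v : V} (h3 : dg G v S = 3) : ntd G S v ≠ 0 := by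
  classical
  intro h0
  rw [dg_card, card_eq_three] at h3
  obtain ⟨x, y, z, hxy, hxz, hyz, hset⟩ := h3
  have hmem : ∀ u, u ∈ S ∧ G.Adj v u ↔ u = x ∨ u = y ∨ u = z := by
    intro u
    have : u ∈ S.filter (fun y => G.Adj v y) ↔ u ∈ ({x, y, z} : Finset V) := by rw [hset]
    rw [mem_filter, mem_insert, mem_insert, mem_singleton] at this
    exact this
  have hx := (hmem x).2 (Or.inl rfl)
  have hy := (hmem y).2 (Or.inr (Or.inl rfl))
  have hz := (hmem z).2 (Or.inr (Or.inr rfl))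
  obtain ⟨p, hpS, hvp, hxp⟩ := partner h0 hx.1 hx.2
  rcases (hmem p).1 ⟨hpS, hvp⟩ with rfl | rfl | rfl
  · exact hxp.ne rfl
  · -- x ~ y
    obtain ⟨q, hqS, hvq, hzq⟩ := partner h0 hz.1 hz.2
    rcases (hmem q).1 ⟨hqS, hvq⟩ with rfl | rfl | rfl
    · exact noC4 hG hxp.symm hzq.symm hz.2.symm hy.2 hyz hx.2.ne.symm
    · exact noC4 hG hxp hzq.symm hz.2.symm hx.2 hxz hy.2.ne.symm
    · exact hzq.ne rfl
  · -- x ~ z
    obtain ⟨q, hqS, hvq, hyq⟩ := partner h0 hy.1 hy.2
    rcases (hmem q).1 ⟨hqS, hvq⟩ with rfl | rfl | rfl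
    · exact noC4 hG hxp.symm hyq.symm hy.2.symm hz.2 hyz.symm hx.2.ne.symm
    · exact hyq.ne rfl
    · exact noC4 hG hxp hyq.symm hy.2.symm hx.2 hxy hz.2.ne.symm

theorem defects (hG : NoC45 G) (hTB : ∀ S : Finset V, S.Nonempty → HasTB (ES G S))
    (hS : S.Nonempty) (h2 : ∀ v ∈ S, 2 ≤ dg G v S)
    (hadj : ∀ u ∈ S, ∀ v ∈ S, G.Adj u v → 5 ≤ dg G u S + dg G v S) (e : ℕ)
    (he : 4 * S.card ≤ ∑ v ∈ S, dg G v S + e) : ∑ v ∈ S, wD G S v ≤ 71 * e := by
  classical
  set Z := S.filter (fun v => dg G v S = 2 ∧ ntd G S v = 0) with hZ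
  have hZb := Z0_bound hG hTB hS hadj Z (fun v => by rw [hZ, mem_filter])
  have hsp := sparse_of hG S hS (hTB S hS)
  set L := S.filter (fun v => dg G v S ≤ 3) with hL
  set M := S.filter (fun v => ntd G S v ≠ 0) with hM
  have hMc : M.card ≤ ∑ v ∈ S, ntd G S v := by
    rw [hM, card_filter]
    apply sum_le_sum
    intro v _
    split_ifs with h
    · omega
    · exact Nat.zero_le _
  have hLc : L.card ≤ Z.card + M.card := by
    refine (card_le_card ?_).trans (card_union_le Z M)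
    intro v hv
    obtain ⟨hvS, hv3⟩ := mem_filter.1 hv
    rw [mem_union, hZ, hM, mem_filter, mem_filter]
    by_cases h0 : ntd G S v = 0
    · left
      refine ⟨hvS, ?_, h0⟩
      have := h2 v hvS
      have h5 : dg G v S ≠ 3 := fun h => deg3 hG h h0
      omega
    · right; exact ⟨hvS, h0⟩
  have hpos : ∑ v ∈ S, (4 - dg G v S) ≤ 2 * L.card := by
    rw [hL, card_filter, mul_sum]
    apply sum_le_sum
    intro v hv
    have := h2 v hv
    split_ifs with h <;> omega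
  have hbal : ∑ v ∈ S, dg G v S + ∑ v ∈ S, (4 - dg G v S) =
      4 * S.card + ∑ v ∈ S, (dg G v S - 4) := by
    rw [← sum_add_distrib, mul_comm, ← smul_eq_mul, ← sum_const, ← sum_add_distrib]
    apply sum_congr rfl
    intro v _
    omega
  have hw : ∑ v ∈ S, wD G S v ≤ 5 * ∑ v ∈ S, (dg G v S - 4) + 3 * L.card + 4 * M.card := by
    rw [hL, hM, card_filter, card_filter, mul_sum, mul_sum, mul_sum, ← sum_add_distrib,
      ← sum_add_distrib]
    apply sum_le_sum
    intro v _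
    unfold wD
    by_cases h0 : ntd G S v = 0
    · by_cases h4 : dg G v S = 4
      · rw [if_neg (by rw [not_or, not_not, not_not]; exact ⟨h4, h0⟩)]
        exact Nat.zero_le _
      · rw [if_pos (Or.inl h4)]
        split_ifs <;> omega
    · rw [if_pos (Or.inr h0), if_pos (c := ntd G S v ≠ 0) h0]
      split_ifs <;> omega
  omega

set_option exponentiation.threshold 500 in
theorem exists_A (hG : NoC45 G) (hTB : ∀ S : Finset V, S.Nonempty → HasTB (ES G S))
    (h5 : ¬ K5Model G) (hS : S.Nonempty) (K : ℕ) (hK : sz 96000 280 ≤ K) (hK2 : 2 ≤ K)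
    (hB : ∀ T ⊆ S, T.Nonempty → T.card ≤ K → 4 * T.card ≤ F2 G S T) :
    ∃ A ⊆ S, A.Nonempty ∧ A.card ≤ K ∧
      2500 * ((F2 G S A : ℤ) - 4 * A.card) + ∑ v ∈ A, (dg G v (S \ A) : ℤ) +
      ∑ v ∈ A, (wD G S v : ℤ) < A.card := by
  classical
  set n := S.card with hn
  have hnpos : 0 < n := card_pos.2 hS
  -- small sets
  have h2 : ∀ v ∈ S, 2 ≤ dg G v S := by
    intro v hv
    have h1 := hB {v} (singleton_subset_iff.2 hv) (singleton_nonempty v) (by
      rw [card_singleton]; omega)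
    unfold F2 at h1
    rw [sum_singleton, dg_single, card_singleton] at h1
    have h3 : dg G v (S \ {v}) ≤ dg G v S := dg_mono G v sdiff_subset
    omega
  have hadj : ∀ u ∈ S, ∀ v ∈ S, G.Adj u v → 5 ≤ dg G u S + dg G v S := by
    intro u hu v hv huv
    have hsub : ({u, v} : Finset V) ⊆ S := by
      intro z hz
      rcases mem_insert.1 hz with rfl | hz
      · exact hu
      · rw [mem_singleton.1 hz]; exact hv
    have h1 := hB {u, v} hsub ⟨u, by simp⟩ (by rw [card_pair huv.ne]; exact hK2)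
    unfold F2 at h1
    rw [sum_pair huv.ne, dg_pair G huv, dg_pair' G huv, card_pair huv.ne] at h1
    have h3 := dg_sdiff G u hsub
    have h4 := dg_sdiff G v hsub
    rw [dg_pair G huv] at h3
    rw [dg_pair' G huv] at h4
    omega
  set U := S.filter (fun v => dg G v S ≤ 96000) with hU
  have hUS : U ⊆ S := filter_subset _ _
  have hsp : ∀ W : Finset V, W.Nonempty → ∑ v ∈ W, dg G v W + 4 ≤ 4 * W.card := by
    intro W hW
    have := sparse_of hG W hW (hTB W hW)
    omega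
  have htot : ∑ v ∈ S, dg G v S + 4 ≤ 4 * n := hsp S hS
  have hsplit : ∑ v ∈ S \ U, dg G v S + ∑ v ∈ U, dg G v S = ∑ v ∈ S, dg G v S := sum_sdiff hUS
  have hhi : ∀ v ∈ S \ U, 96001 ≤ dg G v S := by
    intro v hv
    rw [mem_sdiff, mem_filter] at hv
    by_contra hcon
    exact hv.2 ⟨hv.1, by omega⟩
  have hhigh : 96001 * (S \ U).card ≤ ∑ v ∈ S \ U, dg G v S := by
    have h1 := card_nsmul_le_sum (S \ U) _ 96001 hhi
    rw [smul_eq_mul] at h1
    omega
  have hcard : (S \ U).card + U.card = n := card_sdiff_add_card_eq_card hUS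
  have hUne : U.Nonempty := by
    rw [← card_pos]; omega
  obtain ⟨lab, hconn, hsize, hwt⟩ := iterate G h5 U 96000 (fun x hx =>
    (dg_mono G x hUS).trans (mem_filter.1 hx).2) 280
  have hid : wt G U id ≤ 4 * n := by
    have h1 : wt G U id ≤ ∑ x ∈ U, dg G x U := by
      unfold wt dg
      apply sum_le_sum; intro x _
      apply sum_le_sum; intro y _
      calc gi G x y * ind (id x ≠ id y) ≤ gi G x y * 1 := Nat.mul_le_mul_left _ (ind_le _)
        _ = gi G x y := mul_one _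
    have h2 : ∑ x ∈ U, dg G x U + 4 ≤ 4 * U.card := hsp U hUne
    omega
  have hsmall : 6000 * wt G U lab ≤ n := by
    have h1 : (28 : ℕ) ^ 280 * (6000 * wt G U lab) ≤ 28 ^ 280 * n := by
      calc (28 : ℕ) ^ 280 * (6000 * wt G U lab) = 6000 * (28 ^ 280 * wt G U lab) := by ring
        _ ≤ 6000 * (27 ^ 280 * wt G U id) := Nat.mul_le_mul_left _ hwt
        _ ≤ 6000 * (27 ^ 280 * (4 * n)) :=
            Nat.mul_le_mul_left _ (Nat.mul_le_mul_left _ hid)
        _ = (24000 * 27 ^ 280) * n := by ring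
        _ ≤ 28 ^ 280 * n := Nat.mul_le_mul_right _ (by norm_num)
    exact Nat.le_of_mul_le_mul_left h1 (by positivity)
  set Λ := U.image lab with hΛ
  have hclU : ∀ a, cl U lab a ⊆ U := fun a => filter_subset _ _
  have hclne : ∀ a ∈ Λ, (cl U lab a).Nonempty := by
    intro a ha
    obtain ⟨x, hx, hxa⟩ := mem_image.1 ha
    exact ⟨x, mem_cl.2 ⟨hx, hxa⟩⟩
  have hclK : ∀ a, (cl U lab a).card ≤ K := fun a => (hsize a).trans hK
  -- sums over the clusters
  have hcsum : ∀ f : V → ℕ, ∑ a ∈ Λ, ∑ v ∈ cl U lab a, f v = ∑ v ∈ U, f v := by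
    intro f
    rw [← sum_fiberwise_of_maps_to (s := U) (t := Λ) (g := lab)
      (fun x hx => mem_image_of_mem lab hx)]
    rfl
  have hc1 : ∑ a ∈ Λ, (cl U lab a).card = U.card :=
    (card_eq_sum_card_fiberwise (f := lab) (t := Λ) (fun x hx => mem_image_of_mem lab hx)).symm
  have hb0 : ∀ v ∈ U, dg G v (S \ cl U lab (lab v)) =
      dg G v (S \ U) + ∑ y ∈ U, gi G v y * ind (lab v ≠ lab y) := by
    intro v _
    have e2 : dg G v (S \ cl U lab (lab v)) = dg G v (S \ U) + dg G v (U \ cl U lab (lab v)) := by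
      rw [← dg_union]
      · congr 1
        ext x
        simp only [mem_sdiff, mem_union, mem_cl]
        have := @hUS x
        tauto
      · rw [Finset.disjoint_left]
        intro x hx hx'
        exact (mem_sdiff.1 hx).2 (mem_sdiff.1 hx').1
    have e3 : dg G v (U \ cl U lab (lab v)) = ∑ y ∈ U, gi G v y * ind (lab v ≠ lab y) := by
      have e4 : U \ cl U lab (lab v) = U.filter (fun y => lab v ≠ lab y) := by
        ext y
        simp only [mem_sdiff, mem_cl, mem_filter]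
        constructor
        · rintro ⟨h1, h2⟩
          exact ⟨h1, fun h => h2 ⟨h1, h.symm⟩⟩
        · rintro ⟨h1, h2⟩
          exact ⟨h1, fun h => h2 h.2.symm⟩
      rw [e4]
      unfold dg
      rw [sum_filter]
      apply sum_congr rfl
      intro y _
      by_cases h : lab v ≠ lab y
      · rw [if_pos h, ind_pos h, mul_one]
      · rw [if_neg h, ind_neg h, mul_zero]
    omega
  set x := ∑ v ∈ U, dg G v (S \ U) with hx
  have hbs : ∑ a ∈ Λ, ∑ v ∈ cl U lab a, dg G v (S \ cl U lab a) = x + wt G U lab := by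
    have e1 : ∑ a ∈ Λ, ∑ v ∈ cl U lab a, dg G v (S \ cl U lab a) =
        ∑ a ∈ Λ, ∑ v ∈ cl U lab a, dg G v (S \ cl U lab (lab v)) := by
      apply sum_congr rfl
      intro a _
      apply sum_congr rfl
      intro v hv
      rw [(mem_cl.1 hv).2]
    rw [e1, hcsum (fun v => dg G v (S \ cl U lab (lab v))), sum_congr rfl hb0, sum_add_distrib]
    rfl
  have hFs : ∑ a ∈ Λ, F2 G S (cl U lab a) = ∑ v ∈ U, dg G v S + (x + wt G U lab) := by
    rw [← hbs, ← hcsum (fun v => dg G v S), ← sum_add_distrib]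
    apply sum_congr rfl
    intro a _
    unfold F2
    rw [← sum_add_distrib]
    apply sum_congr rfl
    intro v _
    have := dg_sdiff G v ((hclU a).trans hUS)
    omega
  have hxH : x ≤ ∑ v ∈ S \ U, dg G v S := by
    rw [hx, dg_swap]
    exact sum_le_sum (fun v _ => dg_mono G v hUS)
  have h4U : 4 * U.card ≤ ∑ a ∈ Λ, F2 G S (cl U lab a) := by
    rw [← hc1, mul_sum]
    exact sum_le_sum (fun a ha => hB _ ((hclU a).trans hUS) (hclne a ha) (hclK a))
  obtain ⟨e, he⟩ : ∃ e, e = 4 * (S \ U).card + wt G U lab := ⟨_, rfl⟩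
  have hdef := defects hG hTB hS h2 hadj e (by omega)
  have hwsplit : ∑ v ∈ S \ U, wD G S v + ∑ v ∈ U, wD G S v = ∑ v ∈ S, wD G S v := sum_sdiff hUS
  have hHw : ∑ v ∈ S \ U, dg G v S ≤ ∑ v ∈ S \ U, wD G S v := by
    apply sum_le_sum
    intro v hv
    have h1 := hhi v hv
    unfold wD
    rw [if_pos (Or.inl (by omega))]
  by_contra hcon
  push Not at hcon
  have hall : ∀ a ∈ Λ, ((cl U lab a).card : ℤ) ≤ 2500 * ((F2 G S (cl U lab a) : ℤ) -
      4 * (cl U lab a).card) + ∑ v ∈ cl U lab a, (dg G v (S \ cl U lab a) : ℤ) +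
      ∑ v ∈ cl U lab a, (wD G S v : ℤ) := fun a ha =>
    hcon _ ((hclU a).trans hUS) (hclne a ha) (hclK a)
  have hsum := sum_le_sum hall
  rw [sum_add_distrib, sum_add_distrib, ← mul_sum, sum_sub_distrib, ← mul_sum] at hsum
  have c1 : ∑ a ∈ Λ, ((cl U lab a).card : ℤ) = U.card := by exact_mod_cast hc1
  have c2 : ∑ a ∈ Λ, (F2 G S (cl U lab a) : ℤ) =
      ((∑ v ∈ U, dg G v S + (x + wt G U lab) : ℕ) : ℤ) := by exact_mod_cast hFs
  have c3 : ∑ a ∈ Λ, ∑ v ∈ cl U lab a, (dg G v (S \ cl U lab a) : ℤ) =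
      ((x + wt G U lab : ℕ) : ℤ) := by exact_mod_cast hbs
  have c4 : ∑ a ∈ Λ, ∑ v ∈ cl U lab a, (wD G S v : ℤ) = ((∑ v ∈ U, wD G S v : ℕ) : ℤ) := by
    exact_mod_cast hcsum (fun v => wD G S v)
  rw [c1, c2, c3, c4] at hsum
  have hUpos : 0 < U.card := card_pos.2 hUne
  simp only [Nat.cast_add] at hsum
  omega

end

/-- existence of a good piece -/
theorem exists_T' : ∃ K : ℕ, ∀ (V : Type) [Fintype V] [DecidableEq V] (G : SimpleGraph V),
    NoC45 G → (∀ S : Finset V, S.Nonempty → HasTB (ES G S)) → ¬ K5Model G →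
    ∀ S : Finset V, S.Nonempty → ∃ T ⊆ S, T.Nonempty ∧ T.card ≤ K ∧ OK G S T := by
  obtain ⟨K, hK⟩ : ∃ K, K = sz 96000 280 + 2 := ⟨_, rfl⟩
  refine ⟨K, ?_⟩
  intro V _ _ G hG hTB h5 S hS
  by_cases hA : ∃ T ⊆ S, T.Nonempty ∧ T.card ≤ K ∧ F2 G S T < 4 * T.card
  · exact caseA K hA
  · push Not at hA
    obtain ⟨A, hAS, hAne, hAK, hAlt⟩ := exists_A hG hTB h5 hS K (by omega) (by omega) hA
    obtain ⟨T, hTA, hTne, hT⟩ := select G S hG hAS hAlt
    exact ⟨T, hTA.trans hAS, hTne, (card_le_card hTA).trans hAK, hT⟩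

end Pool.Agent.H38.SD
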