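import Pool.Agent.H38.SD.CritC

set_option autoImplicit false
set_option linter.unusedSectionVars false

/-!
# Sparse pieces have strict fractional list colourings
-/

namespace Pool.Agent.H38.SD

open Finset
open Pool.Agent.TH455 (gi gi_symm gi_zero gi_one gi_nz ind ind_pos ind_neg I2)
open Pool.Agent.N888.TF (Ach Strict dg dg_card dg_mono dg_erase_self dg_single dg_pair dg_pair'
  dg_out bi)

theorem f6a : ∀ i : Fin 6, i + 2 + 1 = i + 3 := by decide
theorem f6b : ∀ i : Fin 6, i + 3 + 1 = i + 4 := by decide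
theorem f6c : ∀ i : Fin 6, i + 4 + 1 = i + 5 := by decide
theorem f6d : ∀ i : Fin 6, i + 5 + 1 = i := by decide
theorem f6e : ∀ i : Fin 6, i ≠ i + 3 := by decide
theorem f6f : ∀ i : Fin 6, i ≠ i + 4 := by decide
theorem f6g : ∀ i : Fin 6, i + 2 ≠ i + 4 := by decide
theorem f6h : ∀ i : Fin 6, i + 2 ≠ i + 5 := by decide
theorem f6i : ∀ i : Fin 6, i + 3 ≠ i + 5 := by decide
theorem f6j : ∀ i : Fin 6, i + 1 ≠ i + 5 := by decide

/-- a family of hexagons -/
theorem hexagons {V : Type} [Fintype V] [DecidableEq V] {G : SimpleGraph V} (hG : NoC45 G)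
    (S : Finset V) (hS : S.Nonempty) (hTB : HasTB (ES G S)) :
    ∃ (P : Type) (_ : Fintype P) (a : P → Fin 6 → V), (∀ x, Function.Injective (a x)) ∧
      (∀ x i, G.Adj (a x i) (a x (i + 1))) ∧ (∀ x i, a x i ∈ S) ∧
      (∀ v ∈ S, (univ.filter (fun x => v ∈ univ.image (a x))).card ≤ dg G v S) ∧
      11 * ∑ v ∈ S, dg G v S + 42 ≤ 6 * Fintype.card P + 42 * S.card := by
  classical
  obtain ⟨-, P, _, b, h1, h2, h3, h4, h5⟩ := counts hG S hS hTB
  choose a ha1 ha2 ha3 using h1
  have hmem : ∀ x i, s(a x i, a x (i + 1)) ∈ b x := by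
    intro x i
    rw [ha3 x]
    exact mem_image_of_mem (fun i => s(a x i, a x (i + 1))) (mem_univ i)
  refine ⟨P, inferInstance, a, ha1, ha2, ?_, ?_, ?_⟩
  · intro x i
    exact (mk_mem_ES.1 (h2 x (hmem x i))).2.1
  · intro v hv
    have e1 : 2 * (univ.filter (fun x => v ∈ univ.image (a x))).card ≤
        ∑ x, ((b x).filter (fun e => v ∈ e)).card := by
      rw [card_filter, mul_sum]
      apply sum_le_sum
      intro x _
      by_cases hx : v ∈ univ.image (a x)
      · rw [if_pos hx]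
        obtain ⟨i, -, hi⟩ := mem_image.1 hx
        have hpos : 0 < ((b x).filter (fun e => v ∈ e)).card := by
          rw [card_pos]
          refine ⟨_, mem_filter.2 ⟨hmem x i, ?_⟩⟩
          rw [hi]; exact Sym2.mem_mk_left _ _
        obtain ⟨k, hk⟩ := h3 x v
        omega
      · rw [if_neg hx]; exact Nat.zero_le _
    have e2 : ∑ x, ((b x).filter (fun e => v ∈ e)).card ≤ 2 * dg G v S := by
      have h6 := sum_card_bipartiteAbove_eq_sum_card_bipartiteBelow (s := (univ : Finset P))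
        (t := (ES G S).filter (fun e => v ∈ e)) (fun x e => e ∈ b x)
      simp only [bipartiteAbove, bipartiteBelow] at h6
      have h7 : ∀ x, ((ES G S).filter (fun e => v ∈ e)).filter (fun e => e ∈ b x) =
          (b x).filter (fun e => v ∈ e) := by
        intro x
        ext e
        simp only [mem_filter]
        have h8 : e ∈ b x → e ∈ ES G S := fun h => h2 x h
        tauto
      simp only [h7] at h6
      rw [h6, ← ES_at hv, mul_comm, ← smul_eq_mul, ← sum_const]
      exact sum_le_sum (fun e _ => h4 e)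
    omega
  · rw [ES_sum]
    omega

theorem sparse_of {V : Type} [Fintype V] [DecidableEq V] {G : SimpleGraph V} (hG : NoC45 G)
    (S : Finset V) (hS : S.Nonempty) (hTB : HasTB (ES G S)) :
    3 * ∑ v ∈ S, dg G v S + ∑ v ∈ S, ntd G S v + 12 ≤ 12 * S.card := by
  have := (counts hG S hS hTB).1
  rw [ES_sum, NS_sum]
  omega

theorem two_hex {V : Type} [Fintype V] [DecidableEq V] (G : SimpleGraph V) (hG : NoC45 G)
    (S : Finset V) (out : V → ℕ) (hne : S.Nonempty) (hTB : HasTB (ES G S))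
    (h4 : ∀ v ∈ S, 4 ≤ dg G v S + out v)
    (hE : 1000 * ∑ v ∈ S, (dg G v S + 2 * out v) ≤ 4002 * S.card)
    (D : Finset V) (hD : D = S.filter (fun v => out v = 0 ∧ dg G v S = 4)) :
    ∃ (a a' : Fin 6 → V) (z : V), Function.Injective a ∧ Function.Injective a' ∧
      (∀ i, G.Adj (a i) (a (i + 1))) ∧ (∀ i, G.Adj (a' i) (a' (i + 1))) ∧
      (∀ i, a i ∈ D) ∧ (∀ i, a' i ∈ D) ∧ z ∈ S ∧ Disjoint (univ.image a) (univ.image a') ∧
      z ∉ univ.image a ∧ z ∉ univ.image a' := by
  classical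
  set n := S.card with hn
  have hnpos : 0 < n := card_pos.2 hne
  obtain ⟨P, _, a, a1, a2, a3, a4, a5⟩ := hexagons hG S hne hTB
  have hsp := sparse_of hG S hne hTB
  -- excess
  let h : V → ℕ := fun v => dg G v S + out v - 4
  have hh : ∀ v ∈ S, dg G v S + out v = 4 + h v := by
    intro v hv; have := h4 v hv; simp only [h]; omega
  have hsum : ∑ v ∈ S, (dg G v S + 2 * out v) = 4 * n + (∑ v ∈ S, h v + ∑ v ∈ S, out v) := by
    have : ∀ v ∈ S, dg G v S + 2 * out v = 4 + (h v + out v) := by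
      intro v hv; have := hh v hv; omega
    rw [sum_congr rfl this, sum_add_distrib, sum_add_distrib, sum_const, smul_eq_mul]
    ring
  have hsmall : 1000 * (∑ v ∈ S, h v + ∑ v ∈ S, out v) ≤ 2 * n := by omega
  have hdsum : ∑ v ∈ S, dg G v S + ∑ v ∈ S, out v = 4 * n + ∑ v ∈ S, h v := by
    rw [← sum_add_distrib, sum_congr rfl hh, sum_add_distrib, sum_const, smul_eq_mul]
    ring
  have hn2000 : 2000 ≤ n := by omega
  -- the exceptional set
  set N := S.filter (fun v => ¬ (out v = 0 ∧ dg G v S = 4)) with hN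
  have hNS : N ⊆ S := filter_subset _ _
  have hNcard : N.card ≤ ∑ v ∈ S, h v + ∑ v ∈ S, out v := by
    rw [← sum_add_distrib]
    have h1 : N.card ≤ ∑ v ∈ N, (h v + out v) := by
      have : ∀ v ∈ N, 1 ≤ h v + out v := by
        intro v hv
        obtain ⟨hvS, hv2⟩ := mem_filter.1 hv
        have := hh v hvS
        by_contra hcon
        apply hv2
        constructor <;> omega
      simpa using card_nsmul_le_sum N _ 1 this
    exact h1.trans (sum_le_sum_of_subset hNS)
  have hNdeg : ∑ v ∈ N, dg G v S ≤ 4 * N.card + ∑ v ∈ S, h v := by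
    have h1 : ∑ v ∈ N, dg G v S ≤ ∑ v ∈ N, (4 + h v) := by
      apply sum_le_sum
      intro v hv
      have := hh v (hNS hv)
      omega
    have h2 : ∑ v ∈ N, (4 + h v) = 4 * N.card + ∑ v ∈ N, h v := by
      rw [sum_add_distrib, sum_const, smul_eq_mul]; ring
    have h3 : ∑ v ∈ N, h v ≤ ∑ v ∈ S, h v := sum_le_sum_of_subset hNS
    omega
  have hDmem : ∀ v, v ∈ D ↔ v ∈ S ∧ out v = 0 ∧ dg G v S = 4 := by
    intro v; rw [hD, mem_filter]
  have hSD : ∀ v ∈ S, v ∉ N → v ∈ D := by
    intro v hv hvN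
    rw [hDmem]
    refine ⟨hv, ?_⟩
    by_contra hcon
    exact hvN (mem_filter.2 ⟨hv, hcon⟩)
  -- hexagons meeting a set
  let mt : Finset V → Finset P :=
    fun Z => Z.biUnion (fun v => univ.filter (fun x => v ∈ univ.image (a x)))
  have hmt : ∀ Z x, x ∈ mt Z ↔ ∃ v ∈ Z, v ∈ univ.image (a x) := by
    intro Z x
    simp only [mt, mem_biUnion, mem_filter, mem_univ, true_and]
  have hmeet : ∀ Z : Finset V, Z ⊆ S → (mt Z).card ≤ ∑ v ∈ Z, dg G v S := by
    intro Z hZ
    refine card_biUnion_le.trans ?_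
    exact sum_le_sum (fun v hv => a4 v (hZ hv))
  have hbadN := hmeet N hNS
  set BN := mt N with hBN
  have hgood : ∀ x, x ∉ BN → ∀ i, a x i ∈ D := by
    intro x hx i
    apply hSD _ (a3 x i)
    intro hi
    exact hx ((hmt _ _).2 ⟨a x i, hi, mem_image_of_mem _ (mem_univ _)⟩)
  -- first hexagon
  obtain ⟨x0, hx0⟩ : ((univ : Finset P) \ BN).Nonempty := by
    rw [← card_pos]
    have h1 := le_card_sdiff BN (univ : Finset P)
    rw [card_univ] at h1
    omega
  have hx0N := (mem_sdiff.1 hx0).2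
  have hg0 := hgood x0 hx0N
  have hX0S : univ.image (a x0) ⊆ S := by
    intro v hv
    obtain ⟨i, -, rfl⟩ := mem_image.1 hv
    exact a3 x0 i
  have hX0c : (univ.image (a x0)).card ≤ 6 := by
    refine card_image_le.trans ?_
    simp
  have hX0d : ∑ v ∈ univ.image (a x0), dg G v S ≤ 24 := by
    have h1 : ∀ v ∈ univ.image (a x0), dg G v S ≤ 4 := by
      intro v hv
      obtain ⟨i, -, rfl⟩ := mem_image.1 hv
      exact ((hDmem _).1 (hg0 i)).2.2.le
    have h2 := sum_le_card_nsmul _ _ 4 h1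
    rw [smul_eq_mul] at h2
    omega
  have hb0 := hmeet _ hX0S
  set B0 := mt (univ.image (a x0)) with hB0
  obtain ⟨x1, hx1⟩ : ((univ : Finset P) \ (BN ∪ B0)).Nonempty := by
    rw [← card_pos]
    have h1 := le_card_sdiff (BN ∪ B0) (univ : Finset P)
    have h2 := card_union_le BN B0
    rw [card_univ] at h1
    omega
  rw [mem_sdiff, mem_union, not_or] at hx1
  obtain ⟨-, hx1N, hx10⟩ := hx1
  have hX1c : (univ.image (a x1)).card ≤ 6 := by
    refine card_image_le.trans ?_
    simp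
  obtain ⟨z, hz⟩ : (S \ (univ.image (a x0) ∪ univ.image (a x1))).Nonempty := by
    rw [← card_pos]
    have h1 := le_card_sdiff (univ.image (a x0) ∪ univ.image (a x1)) S
    have h2 := card_union_le (univ.image (a x0)) (univ.image (a x1))
    omega
  rw [mem_sdiff, mem_union, not_or] at hz
  refine ⟨a x0, a x1, z, a1 x0, a1 x1, a2 x0, a2 x1, hg0, hgood x1 hx1N, hz.1, ?_, hz.2.1, hz.2.2⟩
  rw [Finset.disjoint_left]
  intro v hv hv'
  exact hx10 ((hmt _ _).2 ⟨v, hv, hv'⟩)

theorem strict_thm' {V Ω : Type} [Fintype V] [Fintype Ω] (G : SimpleGraph V)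
    (hG : NoC45 G) (hTB : ∀ S : Finset V, S.Nonempty → HasTB (ES G S)) (A : Ω → Finset V)
    (μ : Ω → ℝ) (hμ : ∀ ω, 0 ≤ μ ω) (out : V → ℕ) (T : Finset V)
    (hell : ∀ v ∈ T, (4 : ℝ) - out v ≤ ∑ ω, μ ω * bi (v ∈ A ω))
    (hE : ∀ S ⊆ T, S.Nonempty → 1000 * ∑ v ∈ S, (dg G v S + 2 * out v) ≤ 4002 * S.card)
    (hout3 : ∀ a ∈ T, ∀ b ∈ T, ∀ c ∈ T, G.Adj a b → G.Adj b c → G.Adj c a →
      out a = 0 ∨ out b = 0 ∨ out c = 0) :
    Strict G A μ T := by
  classical
  by_contra hT
  have hout1 : ∀ v ∈ T, out v ≤ 2 := by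
    intro v hv
    have := hE {v} (singleton_subset_iff.2 hv) (singleton_nonempty v)
    rw [sum_singleton, dg_single, card_singleton] at this
    omega
  have hout2 : ∀ u ∈ T, ∀ v ∈ T, G.Adj u v → out u + out v ≤ 3 := by
    intro u hu v hv huv
    have := hE {u, v} (by
      intro z hz
      rcases mem_insert.1 hz with rfl | hz
      · exact hu
      · rw [mem_singleton.1 hz]; exact hv) ⟨u, by simp⟩
    rw [sum_pair huv.ne, dg_pair G huv, dg_pair' G huv, card_pair huv.ne] at this
    omega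
  obtain ⟨S, hST, hSne, w, hwpos, h4, hPQ⟩ := crit' hμ hG out T hell hout1 hout2 hout3 hT
  obtain ⟨a, a', z, ha, ha', hadj, hadj', haD, haD', hzS, hdis, hz1, hz2⟩ := two_hex G hG S out
    hSne (hTB S hSne) h4 (hE S hST hSne) _ rfl
  set D := S.filter (fun v => out v = 0 ∧ dg G v S = 4) with hD
  have hDS : D ⊆ S := filter_subset _ _
  have hDp : ∀ v ∈ D, out v = 0 ∧ dg G v S = 4 := fun v hv => (mem_filter.1 hv).2
  -- inequality for one hexagon
  have key : ∀ a : Fin 6 → V, Function.Injective a → (∀ i, G.Adj (a i) (a (i + 1))) →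
      (∀ i, a i ∈ D) → ∑ v ∈ S \ univ.image a, w v ≤ ∑ v ∈ univ.image a, w v := by
    intro a ha hadj haD
    have hno : ∀ i, ¬ G.Adj (a i) (a (i + 2)) := by
      intro i hi
      have e1 := hadj (i + 2)
      have e2 := hadj (i + 3)
      have e3 := hadj (i + 4)
      have e4 := hadj (i + 5)
      rw [f6a] at e1
      rw [f6b] at e2
      rw [f6c] at e3
      rw [f6d] at e4
      refine noC5 hG hi e1 e2 e3 e4 ?_ ?_ ?_ ?_ ?_
      · exact fun h => f6e i (ha h)
      · exact fun h => f6f i (ha h)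
      · exact fun h => f6g i (ha h)
      · exact fun h => f6h i (ha h)
      · exact fun h => f6i i (ha h)
    have hind : ∀ I : Finset (Fin 6), (∀ i ∈ I, ∀ j ∈ I, i = j ∨ j = i + 2 ∨ i = j + 2) →
        ∀ u ∈ I.image a, ∀ v ∈ I.image a, ¬ G.Adj u v := by
      intro I hI u hu v hv
      obtain ⟨i, hi, rfl⟩ := mem_image.1 hu
      obtain ⟨j, hj, rfl⟩ := mem_image.1 hv
      rcases hI i hi j hj with h | h | h
      · rw [h]; exact G.loopless.irrefl _
      · rw [h]; exact hno i
      · rw [h]; exact fun h' => hno j h'.symm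
    have hsub : ∀ I : Finset (Fin 6), I.image a ⊆ S := by
      intro I v hv
      obtain ⟨i, -, rfl⟩ := mem_image.1 hv
      exact hDS (haD i)
    have hRS : S \ univ.image a ⊆ S := sdiff_subset
    have hdR : ∀ I : Finset (Fin 6), ∀ v ∈ I.image a, out v = 0 ∧ dg G v (S \ univ.image a) ≤ 2 := by
      intro I v hv
      obtain ⟨i, -, rfl⟩ := mem_image.1 hv
      refine ⟨(hDp _ (haD i)).1, ?_⟩
      have e4 := hadj (i + 5)
      rw [f6d] at e4
      have := dg_out G S (hDS (haD (i + 1))) (hDS (haD (i + 5)))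
        (fun h => f6j i (ha h)) (hadj i) e4.symm _ hRS
        (fun h => (mem_sdiff.1 h).2 (mem_image_of_mem _ (mem_univ _)))
        (fun h => (mem_sdiff.1 h).2 (mem_image_of_mem _ (mem_univ _)))
      have h2 := (hDp _ (haD i)).2
      omega
    have hdisI : ∀ I : Finset (Fin 6), Disjoint (S \ univ.image a) (I.image a) := by
      intro I
      rw [Finset.disjoint_left]
      intro v hv hv'
      obtain ⟨i, -, rfl⟩ := mem_image.1 hv'
      exact (mem_sdiff.1 hv).2 (mem_image_of_mem _ (mem_univ _))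
    have hun : (univ : Finset (Fin 6)) = {0, 2, 4} ∪ {1, 3, 5} := by decide
    have hdI : Disjoint ({0, 2, 4} : Finset (Fin 6)) {1, 3, 5} := by decide
    have h := hPQ (({0, 2, 4} : Finset (Fin 6)).image a) (({1, 3, 5} : Finset (Fin 6)).image a)
      (S \ univ.image a) ⟨a 0, mem_image_of_mem _ (by simp)⟩ (hsub _) (hsub _) hRS
      ((disjoint_image ha).2 hdI) (hdisI _) (hdisI _) ?_ (hind _ (by decide)) (hind _ (by decide))
      (hdR _) (hdR _)
    · rw [hun, image_union, sum_union ((disjoint_image ha).2 hdI), ← image_union, ← hun]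
      exact h
    · intro x hx
      by_cases hxR : x ∈ S \ univ.image a
      · exact Or.inl hxR
      · right
        rw [mem_sdiff, not_and, not_not] at hxR
        have := hxR hx
        rw [hun, image_union, mem_union] at this
        exact this
  have k1 := key a ha hadj haD
  have k2 := key a' ha' hadj' haD'
  set X := univ.image a with hX
  set X' := univ.image a' with hX'
  have hXS : X ⊆ S := by
    intro v hv
    obtain ⟨i, -, rfl⟩ := mem_image.1 hv
    exact hDS (haD i)
  have hXS' : X' ⊆ S := by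
    intro v hv
    obtain ⟨i, -, rfl⟩ := mem_image.1 hv
    exact hDS (haD' i)
  have e1 : ∑ v ∈ S \ X, w v + ∑ v ∈ X, w v = ∑ v ∈ S, w v := sum_sdiff hXS
  have e2 : ∑ v ∈ S \ X', w v + ∑ v ∈ X', w v = ∑ v ∈ S, w v := sum_sdiff hXS'
  have e3 : ∑ v ∈ insert z (X ∪ X'), w v ≤ ∑ v ∈ S, w v := by
    apply sum_le_sum_of_subset_of_nonneg
    · intro x hx
      rcases mem_insert.1 hx with rfl | hx
      · exact hzS
      · rcases mem_union.1 hx with hx | hx
        · exact hXS hx
        · exact hXS' hx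
    · intro x hx _
      exact (hwpos x hx).le
  rw [sum_insert (by rw [mem_union, not_or]; exact ⟨hz1, hz2⟩), sum_union hdis] at e3
  have := hwpos z hzS
  linarith

end Pool.Agent.H38.SD
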